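import Pool.Agent.Helper6H.C3

set_option autoImplicit false
set_option linter.unusedSectionVars false

namespace Pool.Agent.Helper6H

open Finset Filter Pool.Agent.Helper46 Pool.Agent.Helper46.A

theorem choose_double {n j : ℕ} (h : 3 * j + 2 ≤ n) : 2 * n.choose j ≤ n.choose (j + 1) := by
  have h3 := Nat.choose_succ_right_eq n j
  have h4 : 2 * (j + 1) ≤ n - j := by omega
  have h5 : (2 * n.choose j) * (j + 1) ≤ n.choose (j + 1) * (j + 1) := by
    calc (2 * n.choose j) * (j + 1) = n.choose j * (2 * (j + 1)) := by ring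
      _ ≤ n.choose j * (n - j) := Nat.mul_le_mul_left _ h4
      _ = _ := h3.symm
  exact Nat.le_of_mul_le_mul_right h5 (by omega)

theorem rank_big {n r : ℕ} (hn : 100 ≤ n) (hr : r ≤ n) (h : AN.N0 n ≤ 4 * n.choose r) :
    4 * r ≤ 3 * n := by
  by_contra hcon
  push Not at hcon
  obtain ⟨k, hk⟩ : ∃ k, k = n - r := ⟨_, rfl⟩
  have hs : n.choose r = n.choose k := by rw [hk, Nat.choose_symm hr]
  have h1 := choose_double (n := n) (j := k) (by omega)
  have h2 := choose_double (n := n) (j := k + 1) (by omega)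
  have h3 := choose_double (n := n) (j := k + 2) (by omega)
  have h4 : n.choose (k + 2 + 1) ≤ AN.N0 n := by
    unfold AN.N0
    exact Nat.choose_le_middle _ _
  have h5 : 0 < n.choose k := Nat.choose_pos (by omega)
  rw [show k + 1 + 1 = k + 2 by ring] at h2
  omega

/-- the size of the weight factor -/
noncomputable def PP (n : ℕ) : ℝ := 2 ^ (n ^ 2 + n + 2)

/-- number of informations -/
noncomputable def II (n r : ℕ) : ℝ := (((BF n r).image (info (n / 8) r)).card : ℝ)

/-- number of stable families -/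
noncomputable def SS (n r : ℕ) : ℝ := ((St (powersetCard r (univ : Finset (Fin n)))).card : ℝ)

theorem PP_pos (n : ℕ) : 0 < PP n := by unfold PP; positivity

theorem II_nonneg (n r : ℕ) : 0 ≤ II n r := by unfold II; positivity

theorem SS_nonneg (n r : ℕ) : 0 ≤ SS n r := by unfold SS; positivity

theorem num_ev : ∀ᶠ n : ℕ in atTop, (∀ r, II n r * PP n ≤ 2 ^ (AN.Kn n)) ∧
    (∀ r, II n r * PP n ≤ (2 : ℝ) ^ ((AN.N0 n : ℝ) / n / 100)) ∧
    (∀ r, II n r * (SB n (AN.Kn n) : ℝ) * PP n ≤ (2 : ℝ) ^ ((AN.N0 n : ℝ) / n / 500)) ∧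
    (2 : ℝ) ^ (AN.Fs n) * PP n ≤ (2 : ℝ) ^ ((AN.N0 n : ℝ) / n) := by
  have hSB : ∀ n k : ℕ, 1 ≤ n → (AN.SB n k : ℝ) ≤ (n : ℝ) ^ (4 * k) *
      Real.exp ((2 : ℝ) ^ n / (n : ℝ) ^ 4) := fun n k hn => AN.E2.SB_le n k hn
  filter_upwards [AN.E3.num1 AN.E1.tail hSB, AN.E4.num2 AN.E1.tail hSB, AN.E5.num3 AN.E1.tail,
    eventually_ge_atTop 10000] with n h1 h2 h3 hn
  have hI : ∀ r, II n r ≤
      ((2 : ℝ) ^ (AN.Fs n)) ^ 2 * ((AN.SB n (2 * AN.N0 n / (n / 8) ^ 2) : ℕ) : ℝ) ^ 2 := by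
    intro r
    have hI := C6.info_card (n := n) (l := n / 8) (by omega) r
      (fun s B hB => C4.relH_card hB)
    unfold II
    exact_mod_cast hI
  have hn0 : (0 : ℝ) < n := by exact_mod_cast (by omega : 0 < n)
  have c1 : ∀ r, II n r * PP n ≤ 2 ^ (AN.Kn n) := by
    intro r
    refine le_trans (mul_le_mul_of_nonneg_right (hI r) (PP_pos n).le) h1
  have hK : (2 : ℝ) ^ (AN.Kn n) ≤ (2 : ℝ) ^ ((AN.N0 n : ℝ) / n / 100) := by
    rw [← Real.rpow_natCast]
    apply Real.rpow_le_rpow_of_exponent_le (by norm_num)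
    unfold AN.Kn
    refine le_trans (Nat.cast_div_le) ?_
    have hs : 100 ≤ Nat.sqrt n := by
      rw [Nat.le_sqrt]
      omega
    have hs' : (100 : ℝ) ≤ (Nat.sqrt n : ℝ) := by exact_mod_cast hs
    rw [div_div]
    apply div_le_div_of_nonneg_left (by positivity) (by positivity)
    push_cast
    exact mul_le_mul_of_nonneg_left hs' hn0.le
  refine ⟨c1, fun r => (c1 r).trans hK, ?_, h3.1⟩
  intro r
  have hSB1 : (1 : ℝ) ≤ (AN.SB n (3 * (n ^ 2 + n + 2)) : ℝ) := by
    have : 1 ≤ AN.SB n (3 * (n ^ 2 + n + 2)) := by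
      unfold AN.SB
      refine le_trans ?_ (single_le_sum (f := fun j => (2 ^ n).choose j) (fun _ _ => Nat.zero_le _)
        (mem_range.2 (by omega : 0 < 3 * (n ^ 2 + n + 2) + 1)))
      simp
    exact_mod_cast this
  have hsb : SB n (AN.Kn n) = AN.SB n (AN.Kn n) := rfl
  rw [hsb]
  refine le_trans ?_ h2
  have e1 : II n r * (AN.SB n (AN.Kn n) : ℝ) * PP n ≤
      ((2 : ℝ) ^ (AN.Fs n)) ^ 2 * ((AN.SB n (2 * AN.N0 n / (n / 8) ^ 2) : ℕ) : ℝ) ^ 2 *
        (AN.SB n (AN.Kn n) : ℝ) * PP n := by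
    apply mul_le_mul_of_nonneg_right _ (PP_pos n).le
    exact mul_le_mul_of_nonneg_right (hI r) (by positivity)
  refine e1.trans ?_
  have hx : (0 : ℝ) ≤ ((2 : ℝ) ^ (AN.Fs n)) ^ 2 *
      ((AN.SB n (2 * AN.N0 n / (n / 8) ^ 2) : ℕ) : ℝ) ^ 2 * (AN.SB n (AN.Kn n) : ℝ) := by
    positivity
  have h5 : ((2 : ℝ) ^ (AN.Fs n)) ^ 2 *
      ((AN.SB n (2 * AN.N0 n / (n / 8) ^ 2) : ℕ) : ℝ) ^ 2 * (AN.SB n (AN.Kn n) : ℝ) ≤
      ((2 : ℝ) ^ (AN.Fs n)) ^ 2 *
      ((AN.SB n (2 * AN.N0 n / (n / 8) ^ 2) : ℕ) : ℝ) ^ 2 * (AN.SB n (AN.Kn n) : ℝ) *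
      (AN.SB n (3 * (n ^ 2 + n + 2)) : ℝ) := le_mul_of_one_le_right hx hSB1
  exact mul_le_mul_of_nonneg_right h5 (PP_pos n).le

open Classical in
/-- base families with a loop -/
noncomputable def LL (n r : ℕ) : Finset (Fam n) :=
  (BF n r).filter (fun B => ∃ a, ∀ X ∈ B, a ∉ X)

open Classical in
/-- base families with a coloop -/
noncomputable def LC (n r : ℕ) : Finset (Fam n) :=
  (BF n r).filter (fun B => ∃ a, ∀ X ∈ B, a ∈ X)

theorem LL_bound : ∀ᶠ n : ℕ in atTop, ∀ r : ℕ, n ≤ 8 * r → 8 * r ≤ 7 * n →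
    AN.N0 n ≤ 4 * n.choose r → ((LL n r).card : ℝ) * PP n ≤ n * mm n := by
  classical
  filter_upwards [num_ev, loop_bound, eventually_ge_atTop 100] with n hnum hlb hn r h1 h2 hC
  obtain ⟨-, hn2, -, -⟩ := hnum
  have hsub : LL n r ⊆ (univ : Finset (Fin n)).biUnion
      (fun a => (BF n r).filter (fun B => ∀ X ∈ B, a ∉ X)) := by
    intro B hB
    unfold LL at hB
    obtain ⟨hB1, a, ha⟩ := mem_filter.1 hB
    exact mem_biUnion.2 ⟨a, mem_univ _, mem_filter.2 ⟨hB1, ha⟩⟩
  have hc : (LL n r).card ≤ ∑ a : Fin n, ((BF n r).filter (fun B => ∀ X ∈ B, a ∉ X)).card :=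
    (card_le_card hsub).trans card_biUnion_le
  have hc' : ((LL n r).card : ℝ) ≤
      ∑ a : Fin n, (((BF n r).filter (fun B => ∀ X ∈ B, a ∉ X)).card : ℝ) := by exact_mod_cast hc
  have hS : SS n r ≤ mm n := st_le_mm (by omega) (by omega)
  have hn0 : (0 : ℝ) < n := by exact_mod_cast (by omega : 0 < n)
  have key : ∀ a : Fin n, (((BF n r).filter (fun B => ∀ X ∈ B, a ∉ X)).card : ℝ) * PP n ≤ mm n := by
    intro a
    have l1 := loop_count (n := n) (r := r) (l := n / 8) (by omega) a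
    have l1' : (((BF n r).filter (fun B => ∀ X ∈ B, a ∉ X)).card : ℝ) ≤
        II n r * ((St (powersetCard r (univ.erase a))).card : ℝ) := by
      unfold II
      exact_mod_cast l1
    have l2 := hlb a r h1 h2 hC
    set V : ℝ := ((St (powersetCard r (univ.erase a))).card : ℝ)
    have hV : 0 ≤ V := by positivity
    have hexp : (2 : ℝ) ^ ((AN.N0 n : ℝ) / n / 100) ≤ (2 : ℝ) ^ ((AN.N0 n : ℝ) / n / 80) := by
      apply Real.rpow_le_rpow_of_exponent_le (by norm_num)
      apply div_le_div_of_nonneg_left (by positivity) (by norm_num) (by norm_num)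
    calc (((BF n r).filter (fun B => ∀ X ∈ B, a ∉ X)).card : ℝ) * PP n
        ≤ II n r * V * PP n := mul_le_mul_of_nonneg_right l1' (PP_pos n).le
      _ = V * (II n r * PP n) := by ring
      _ ≤ V * (2 : ℝ) ^ ((AN.N0 n : ℝ) / n / 80) :=
          mul_le_mul_of_nonneg_left ((hn2 r).trans hexp) hV
      _ ≤ SS n r := l2
      _ ≤ mm n := hS
  calc ((LL n r).card : ℝ) * PP n
      ≤ (∑ a : Fin n, (((BF n r).filter (fun B => ∀ X ∈ B, a ∉ X)).card : ℝ)) * PP n :=
        mul_le_mul_of_nonneg_right hc' (PP_pos n).le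
    _ = ∑ a : Fin n, (((BF n r).filter (fun B => ∀ X ∈ B, a ∉ X)).card : ℝ) * PP n := by
        rw [sum_mul]
    _ ≤ ∑ a : Fin n, mm n := sum_le_sum (fun a _ => key a)
    _ = n * mm n := by rw [sum_const, card_univ, Fintype.card_fin, nsmul_eq_mul]

theorem dualF_dualF {n : ℕ} (B : Fam n) : dualF (dualF B) = B := by
  unfold dualF
  rw [image_image]
  have : ((fun X : Finset (Fin n) => Xᶜ) ∘ fun X => Xᶜ) = id := by
    funext X
    simp
  rw [this, image_id]

theorem LC_le {n r : ℕ} : (LC n r).card ≤ (LL n (n - r)).card := by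
  classical
  refine card_le_card_of_injOn dualF ?_ ?_
  · intro B hB
    have hB' : B ∈ LC n r := mem_coe.1 hB
    unfold LC at hB'
    obtain ⟨hB1, a, ha⟩ := mem_filter.1 hB'
    refine mem_coe.2 ?_
    unfold LL
    refine mem_filter.2 ⟨mem_BF.2 (dual_isBF (mem_BF.1 hB1)), a, ?_⟩
    intro Y hY
    unfold dualF at hY
    obtain ⟨X, hX, rfl⟩ := mem_image.1 hY
    rw [mem_compl, not_not]
    exact ha X hX
  · intro B _ B' _ h
    rw [← dualF_dualF B, ← dualF_dualF B', h]

open Classical in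
/-- bad base families -/
noncomputable def BadF (n r : ℕ) : Finset (Fam n) :=
  (BF n r).filter (fun B => ¬ (4 * r ≤ 3 * n ∧ 20 * (n.choose r - B.card) ≤ n.choose r))

theorem bad_rank : ∀ᶠ n : ℕ in atTop, ∀ r ≤ n, ((BadF n r).card : ℝ) * 2 ^ (n ^ 2) ≤ mm n := by
  classical
  filter_upwards [num_ev, LL_bound, E7.upper, eventually_ge_atTop 10000]
    with n hnum hLL hup hn r hr
  obtain ⟨k1, k2, k3, k4⟩ := hnum
  have hmm := mm_lower (n := n) (by omega)
  have hmm0 : 0 < mm n := lt_of_lt_of_le (by positivity) hmm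
  have hn0 : (0 : ℝ) < n := by exact_mod_cast (by omega : 0 < n)
  have hPge : (2 : ℝ) ^ (n ^ 2) ≤ PP n := by
    unfold PP
    exact pow_le_pow_right₀ (by norm_num) (by omega)
  have hbadBF : ((BadF n r).card : ℝ) ≤ ((BF n r).card : ℝ) := by
    have : BadF n r ⊆ BF n r := filter_subset _ _
    exact_mod_cast card_le_card this
  by_cases hw : n ≤ 8 * r ∧ 8 * r ≤ 7 * n
  swap
  · have hc := choose_le_Fs (by omega) hw
    have e1 : ((BadF n r).card : ℝ) ≤ 2 ^ (AN.Fs n) := by
      refine hbadBF.trans ?_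
      have : (BF n r).card ≤ 2 ^ (AN.Fs n) :=
        (BF_card_le n r).trans (Nat.pow_le_pow_right (by norm_num) hc)
      exact_mod_cast this
    calc ((BadF n r).card : ℝ) * 2 ^ (n ^ 2) ≤ 2 ^ (AN.Fs n) * PP n :=
          mul_le_mul e1 hPge (by positivity) (by positivity)
      _ ≤ _ := k4
      _ ≤ _ := hmm
  obtain ⟨hw1, hw2⟩ := hw
  by_cases hC : 4 * n.choose r < n.choose (n / 2)
  · -- few base families at this rank
    have hrows := A3.super_rows (n := n) univ r (by omega) (by rw [card_univ, Fintype.card_fin]; omega)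
    have hcols := A4.super_cols (n := n) univ r (by rw [card_univ, Fintype.card_fin]; omega)
    have h := hup r hw1 hw2 hC (fun a θ ha hθ V h lam hl => kwU a θ ha hθ V h lam hl)
      (fun A hA hc => by
        have := hrows (1 / 10) (by norm_num) A hA (by rw [card_univ, Fintype.card_fin]; exact hc)
        rw [card_univ, Fintype.card_fin] at this
        exact this)
      (fun A hA hc => by
        have := hcols (1 / 10) (by norm_num)
          (fun j hj1 hj2 A hA hc => A3.super_rows univ j hj1 hj2 (1 / 10) (by norm_num) A hA hc)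
          A hA (by rw [card_univ, Fintype.card_fin]; exact hc)
        rw [card_univ, Fintype.card_fin] at this
        exact this)
    have hall : ((BF n r).card : ℝ) ≤ II n r * SS n r := by
      unfold II SS
      exact_mod_cast all_count (n := n) (r := r) (l := n / 8)
    have hSS : SS n r ≤ (2 : ℝ) ^ ((3 : ℝ) / 5 * ((AN.N0 n : ℝ) / n)) := h
    have hexp : (2 : ℝ) ^ ((3 : ℝ) / 5 * ((AN.N0 n : ℝ) / n)) * (2 : ℝ) ^ ((AN.N0 n : ℝ) / n / 100) ≤
        (2 : ℝ) ^ ((AN.N0 n : ℝ) / n) := by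
      rw [← Real.rpow_add (by norm_num)]
      apply Real.rpow_le_rpow_of_exponent_le (by norm_num)
      have : (0 : ℝ) ≤ (AN.N0 n : ℝ) / n := by positivity
      linarith
    calc ((BadF n r).card : ℝ) * 2 ^ (n ^ 2) ≤ (II n r * SS n r) * PP n :=
          mul_le_mul (hbadBF.trans hall) hPge (by positivity)
            (mul_nonneg (II_nonneg n r) (SS_nonneg n r))
      _ = SS n r * (II n r * PP n) := by ring
      _ ≤ (2 : ℝ) ^ ((3 : ℝ) / 5 * ((AN.N0 n : ℝ) / n)) * (2 : ℝ) ^ ((AN.N0 n : ℝ) / n / 100) :=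
          mul_le_mul hSS (k2 r) (mul_nonneg (II_nonneg n r) (PP_pos n).le) (by positivity)
      _ ≤ _ := hexp
      _ ≤ _ := hmm
  · push Not at hC
    have hC' : AN.N0 n ≤ 4 * n.choose r := hC
    have hrk := rank_big (by omega) hr hC'
    have hS : SS n r ≤ mm n := st_le_mm (by omega) (by omega)
    have hL1 := hLL r hw1 hw2 hC'
    have hL2 := hLL (n - r) (by omega) (by omega) (by rw [Nat.choose_symm hr]; exact hC')
    have hLC : ((LC n r).card : ℝ) * PP n ≤ n * mm n := by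
      refine le_trans (mul_le_mul_of_nonneg_right ?_ (PP_pos n).le) hL2
      exact_mod_cast LC_le
    set A1 := (BF n r).filter (fun B => AN.Kn n ≤ (nt (n / 8) r B).card) with hA1
    set D := (BF n r).filter (fun B => (nt (n / 8) r B).card ≤ AN.Kn n ∧ (∀ a, ∃ X ∈ B, a ∈ X) ∧
      (∀ a, ∃ X ∈ B, a ∉ X)) with hD
    set A4 := D.filter (fun B => n.choose r < 20 * (n.choose r - B.card)) with hA4
    have hcov : BadF n r ⊆ A1 ∪ (LL n r ∪ (LC n r ∪ A4)) := by
      intro B hB
      unfold BadF at hB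
      obtain ⟨hB1, hB2⟩ := mem_filter.1 hB
      have hB3 : n.choose r < 20 * (n.choose r - B.card) := by
        by_contra hcon
        push Not at hcon
        exact hB2 ⟨hrk, hcon⟩
      by_cases c1 : AN.Kn n ≤ (nt (n / 8) r B).card
      · exact mem_union_left _ (mem_filter.2 ⟨hB1, c1⟩)
      · by_cases c2 : ∃ a, ∀ X ∈ B, a ∉ X
        · exact mem_union_right _ (mem_union_left _ (by unfold LL; exact mem_filter.2 ⟨hB1, c2⟩))
        · by_cases c3 : ∃ a, ∀ X ∈ B, a ∈ X
          · exact mem_union_right _ (mem_union_right _ (mem_union_left _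
              (by unfold LC; exact mem_filter.2 ⟨hB1, c3⟩)))
          · refine mem_union_right _ (mem_union_right _ (mem_union_right _ ?_))
            push Not at c2 c3
            exact mem_filter.2 ⟨mem_filter.2 ⟨hB1, by omega, c2, c3⟩, hB3⟩
    have hc : ((BadF n r).card : ℝ) ≤ A1.card + ((LL n r).card + ((LC n r).card + A4.card)) := by
      have g1 := card_le_card hcov
      have g2 := card_union_le A1 (LL n r ∪ (LC n r ∪ A4))
      have g3 := card_union_le (LL n r) (LC n r ∪ A4)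
      have g4 := card_union_le (LC n r) A4
      exact_mod_cast g1.trans (by omega)
    -- part 1
    have t1 : (A1.card : ℝ) * PP n ≤ mm n := by
      have f1 := nt_count (n := n) (r := r) (l := n / 8) (K := AN.Kn n)
      have f1' : (A1.card : ℝ) * 2 ^ (AN.Kn n) ≤ II n r * SS n r := by
        unfold II SS
        exact_mod_cast f1
      have h2K : (0 : ℝ) < 2 ^ (AN.Kn n) := by positivity
      have : ((A1.card : ℝ) * PP n) * 2 ^ (AN.Kn n) ≤ mm n * 2 ^ (AN.Kn n) := by
        calc ((A1.card : ℝ) * PP n) * 2 ^ (AN.Kn n) = ((A1.card : ℝ) * 2 ^ (AN.Kn n)) * PP n := by ring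
          _ ≤ (II n r * SS n r) * PP n := mul_le_mul_of_nonneg_right f1' (PP_pos n).le
          _ = SS n r * (II n r * PP n) := by ring
          _ ≤ mm n * 2 ^ (AN.Kn n) := mul_le_mul hS (k1 r)
              (mul_nonneg (II_nonneg n r) (PP_pos n).le) hmm0.le
      exact le_of_mul_le_mul_right this h2K
    -- part 4
    have t4 : (A4.card : ℝ) * PP n ≤ mm n := by
      have f1 := kp_count (n := n) (r := r) (l := n / 8) (K := AN.Kn n) (by omega)
      have f2 : ∀ B ∈ A4, (2 : ℝ) ^ ((AN.N0 n : ℝ) / n / 160) ≤ ((St (Kp (n / 8) r B)).card : ℝ) := by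
        intro B hB
        obtain ⟨hB1, hB2⟩ := mem_filter.1 hB
        obtain ⟨hB3, hB4, hB5, hB6⟩ := mem_filter.1 hB1
        have hBF := mem_BF.1 hB3
        refine le_trans ?_ (B1.st_lower (by omega) (Kp (n / 8) r B))
        apply Real.rpow_le_rpow_of_exponent_le (by norm_num)
        have g1 := Kp_card (l := n / 8) hBF
        have g2 := St_card (by omega) hr (sg_St (l := n / 8) hBF)
        have g3 : (sg (n / 8) r B).card * 1000 ≤ n.choose r :=
          (Nat.mul_le_mul_left _ (by omega : 1000 ≤ n - r + 1)).trans g2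
        have g4 : n.choose r ≤ 40 * (Kp (n / 8) r B).card := by omega
        have g5 : AN.N0 n ≤ 160 * (Kp (n / 8) r B).card := by omega
        have g6 : (AN.N0 n : ℝ) ≤ 160 * ((Kp (n / 8) r B).card : ℝ) := by exact_mod_cast g5
        rw [div_div, mul_comm (n : ℝ) 160, ← div_div]
        apply div_le_div_of_nonneg_right _ hn0.le
        linarith
      have f3 : (A4.card : ℝ) * (2 : ℝ) ^ ((AN.N0 n : ℝ) / n / 160) ≤
          II n r * (SB n (AN.Kn n) : ℝ) * SS n r := by
        calc (A4.card : ℝ) * (2 : ℝ) ^ ((AN.N0 n : ℝ) / n / 160)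
            = ∑ B ∈ A4, (2 : ℝ) ^ ((AN.N0 n : ℝ) / n / 160) := by rw [sum_const, nsmul_eq_mul]
          _ ≤ ∑ B ∈ A4, ((St (Kp (n / 8) r B)).card : ℝ) := sum_le_sum f2
          _ ≤ ∑ B ∈ D, ((St (Kp (n / 8) r B)).card : ℝ) :=
              sum_le_sum_of_subset_of_nonneg (filter_subset _ _) (fun _ _ _ => by positivity)
          _ ≤ _ := by
              unfold II SS
              exact_mod_cast f1
      have hexp : (2 : ℝ) ^ ((AN.N0 n : ℝ) / n / 500) ≤ (2 : ℝ) ^ ((AN.N0 n : ℝ) / n / 160) := by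
        apply Real.rpow_le_rpow_of_exponent_le (by norm_num)
        apply div_le_div_of_nonneg_left (by positivity) (by norm_num) (by norm_num)
      have h2K : (0 : ℝ) < (2 : ℝ) ^ ((AN.N0 n : ℝ) / n / 160) := by positivity
      have : ((A4.card : ℝ) * PP n) * (2 : ℝ) ^ ((AN.N0 n : ℝ) / n / 160) ≤
          mm n * (2 : ℝ) ^ ((AN.N0 n : ℝ) / n / 160) := by
        calc ((A4.card : ℝ) * PP n) * (2 : ℝ) ^ ((AN.N0 n : ℝ) / n / 160)
            = ((A4.card : ℝ) * (2 : ℝ) ^ ((AN.N0 n : ℝ) / n / 160)) * PP n := by ring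
          _ ≤ (II n r * (SB n (AN.Kn n) : ℝ) * SS n r) * PP n :=
              mul_le_mul_of_nonneg_right f3 (PP_pos n).le
          _ = SS n r * (II n r * (SB n (AN.Kn n) : ℝ) * PP n) := by ring
          _ ≤ mm n * (2 : ℝ) ^ ((AN.N0 n : ℝ) / n / 160) := by
              refine mul_le_mul hS ((k3 r).trans hexp) ?_ hmm0.le
              exact mul_nonneg (mul_nonneg (II_nonneg n r) (by positivity)) (PP_pos n).le
      exact le_of_mul_le_mul_right this h2K
    have hsum : ((BadF n r).card : ℝ) * PP n ≤ (2 + 2 * n) * mm n := by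
      have := mul_le_mul_of_nonneg_right hc (PP_pos n).le
      nlinarith
    have hpow : PP n = 4 * 2 ^ n * 2 ^ (n ^ 2) := by
      unfold PP
      rw [pow_add, pow_add]; norm_num; ring
    have hn1 : ((n : ℝ) + 1) ≤ 2 ^ n := by
      have : n + 1 ≤ 2 ^ n := Nat.lt_two_pow_self
      exact_mod_cast this
    rw [hpow] at hsum
    have h2n : (0 : ℝ) < 4 * 2 ^ n := by positivity
    have : (4 * 2 ^ n) * (((BadF n r).card : ℝ) * 2 ^ (n ^ 2)) ≤ (4 * 2 ^ n) * mm n := by
      nlinarith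
    exact le_of_mul_le_mul_left this h2n

end Pool.Agent.Helper6H
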