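import Pool.Agent.Helper6H.Ind

set_option autoImplicit false
set_option linter.unusedSectionVars false

namespace Pool.Agent.Helper6H

open Finset Polynomial

variable {α : Type*} [DecidableEq α]

theorem gam_closed (q i : ℕ) : gam (q + 2) i = ((q + i).choose i : ℤ) := by
  cases i with
  | zero => simp [gam_zero]
  | succ j =>
    rw [gam_succ, Nat.multichoose_eq, Nat.multichoose_eq]
    rw [show q + 2 + (j + 1) - 1 = (q + j + 1) + 1 by omega, show q + 2 + j - 1 = q + j + 1 by omega,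
      Nat.choose_succ_succ]
    push_cast
    rw [show q + (j + 1) = q + j + 1 by omega]
    ring

theorem choose_id (q i : ℕ) : (q + 2 + i).choose i * ((q + 2) * (q + 1)) =
    (q + i).choose i * ((q + i + 2) * (q + i + 1)) := by
  have h1 := Nat.choose_mul_succ_eq (q + i) i
  have h2 := Nat.choose_mul_succ_eq (q + i + 1) i
  rw [show q + i + 1 - i = q + 1 by omega] at h1
  rw [show q + i + 1 + 1 - i = q + 2 by omega] at h2
  rw [show q + 2 + i = q + i + 1 + 1 by omega]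
  calc (q + i + 1 + 1).choose i * ((q + 2) * (q + 1))
      = ((q + i + 1 + 1).choose i * (q + 2)) * (q + 1) := by ring
    _ = ((q + i + 1).choose i * (q + i + 1 + 1)) * (q + 1) := by rw [h2]
    _ = ((q + i + 1).choose i * (q + 1)) * (q + i + 2) := by ring
    _ = ((q + i).choose i * (q + i + 1)) * (q + i + 2) := by rw [h1]
    _ = _ := by ring

theorem nondec {m r : ℕ} {E : Finset α} {F : Finset (Finset α)} (hm : E.card = m)
    (hE : ∀ I ∈ F, I ⊆ E) (hF : IM F r) (h16 : 16 ≤ m) (h4 : 4 * r ≤ 3 * m)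
    (hb : 20 * (m.choose r - bs F r) ≤ m.choose r) :
    ∀ i < r, (hp F r).coeff i ≤ (hp F r).coeff (i + 1) := by
  intro i hi
  have hr : r ≤ m := by omega
  have key := main_bound m E F r hm hE hF (i + 1) hi
  rw [gg_succ] at key
  obtain ⟨q, hq⟩ : ∃ q, m - r = q + 2 := ⟨m - r - 2, by omega⟩
  rw [hq, gam_closed] at key
  have hN : (0 : ℝ) < (m.choose r : ℝ) := by exact_mod_cast Nat.choose_pos hr
  have hble : bs F r ≤ m.choose r := by rw [← hm]; exact bs_le hE r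
  have hβ : 1 - (bs F r : ℝ) / (m.choose r : ℝ) ≤ 1 / 20 := by
    have h' : 20 * ((m.choose r : ℝ) - bs F r) ≤ (m.choose r : ℝ) := by
      have : ((20 * (m.choose r - bs F r) : ℕ) : ℝ) ≤ (m.choose r : ℝ) := by exact_mod_cast hb
      push_cast [Nat.cast_sub hble] at this
      exact this
    have e : 1 - (bs F r : ℝ) / (m.choose r : ℝ) = ((m.choose r : ℝ) - bs F r) / (m.choose r : ℝ) := by
      field_simp
    rw [e, div_le_div_iff₀ hN (by norm_num)]
    linarith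
  have hid : ((q + 2 + (i + 1)).choose (i + 1) : ℝ) * (((q : ℝ) + 2) * ((q : ℝ) + 1)) =
      ((q + (i + 1)).choose (i + 1) : ℝ) * (((q : ℝ) + (i + 1) + 2) * ((q : ℝ) + (i + 1) + 1)) := by
    exact_mod_cast choose_id q (i + 1)
  have hmq : m = r + q + 2 := by omega
  have hmq' : (m : ℝ) = r + q + 2 := by exact_mod_cast hmq
  have hir : ((i : ℝ) + 1) ≤ r := by exact_mod_cast hi
  have h4' : 4 * (r : ℝ) ≤ 3 * m := by exact_mod_cast h4
  have h16' : (16 : ℝ) ≤ m := by exact_mod_cast h16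
  have hq0 : (0 : ℝ) ≤ q := by positivity
  have hi0 : (0 : ℝ) ≤ i := by positivity
  -- m (m-1) ≤ 20 p (p-1)
  have hquad : ((q : ℝ) + (i + 1) + 2) * ((q : ℝ) + (i + 1) + 1) ≤ 20 * (((q : ℝ) + 2) * ((q : ℝ) + 1)) := by
    have a1 : (q : ℝ) + (i + 1) + 2 ≤ m := by linarith
    have a2 : (q : ℝ) + (i + 1) + 1 ≤ m - 1 := by linarith
    have a3 : (m : ℝ) / 4 ≤ q + 2 := by linarith
    have a4 : (m : ℝ) / 4 - 1 ≤ q + 1 := by linarith
    have b1 : ((q : ℝ) + (i + 1) + 2) * ((q : ℝ) + (i + 1) + 1) ≤ m * (m - 1) :=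
      mul_le_mul a1 a2 (by linarith) (by linarith)
    have b2 : (m : ℝ) / 4 * (m / 4 - 1) ≤ (q + 2) * (q + 1) :=
      mul_le_mul a3 a4 (by linarith) (by linarith)
    nlinarith
  have hA : (0 : ℝ) ≤ ((q + (i + 1)).choose (i + 1) : ℝ) := by positivity
  have hB : (0 : ℝ) ≤ ((q + 2 + (i + 1)).choose (i + 1) : ℝ) := by positivity
  have hpp : (0 : ℝ) < ((q : ℝ) + 2) * ((q : ℝ) + 1) := by positivity
  have hfin : ((q + 2 + (i + 1)).choose (i + 1) : ℝ) * (1 / 20) ≤ ((q + (i + 1)).choose (i + 1) : ℝ) := by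
    have h1 : ((q + 2 + (i + 1)).choose (i + 1) : ℝ) * (((q : ℝ) + 2) * ((q : ℝ) + 1)) ≤
        ((q + (i + 1)).choose (i + 1) : ℝ) * (20 * (((q : ℝ) + 2) * ((q : ℝ) + 1))) := by
      rw [hid]
      exact mul_le_mul_of_nonneg_left hquad hA
    have h2 : (((q + 2 + (i + 1)).choose (i + 1) : ℝ) * (1 / 20)) * (((q : ℝ) + 2) * ((q : ℝ) + 1)) ≤
        ((q + (i + 1)).choose (i + 1) : ℝ) * (((q : ℝ) + 2) * ((q : ℝ) + 1)) := by linarith
    exact le_of_mul_le_mul_right h2 hpp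
  have hfin2 : ((q + 2 + (i + 1)).choose (i + 1) : ℝ) * (1 - (bs F r : ℝ) / (m.choose r : ℝ)) ≤
      ((q + 2 + (i + 1)).choose (i + 1) : ℝ) * (1 / 20) := mul_le_mul_of_nonneg_left hβ hB
  push_cast at key
  have hz : (0 : ℝ) ≤ (((hp F r).coeff (i + 1) : ℤ) : ℝ) - ((hp F r).coeff i : ℝ) := by linarith
  have : (((hp F r).coeff i : ℤ) : ℝ) ≤ ((hp F r).coeff (i + 1) : ℝ) := by linarith
  exact_mod_cast this

end Pool.Agent.Helper6H
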