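import Pool.Agent.Helper46.A.F
import Pool.Agent.Helper6H.C4
import Pool.Agent.Helper6H.Cor

set_option autoImplicit false
set_option linter.unusedSectionVars false

namespace Pool.Agent.Helper6H

open Finset Filter Pool.Agent.Helper46 Pool.Agent.Helper46.A Pool.Agent.Helper46.A.F

/-- many bases and corank not small -/
def Good {m : ℕ} (M : Matroid (Fin m)) : Prop :=
  ∀ r, IsBF r (bs_22726 M) →
    4 * r ≤ 3 * m ∧ 20 * (m.choose r - (bs_22726 M).card) ≤ m.choose r

theorem bad_total : ∀ᶠ m : ℕ in atTop,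
    (Nat.card {M : XM_22726 m // ¬ Good M.1} : ℝ) * 2 ^ (m ^ 2) ≤
      ((m : ℝ) + 1) * (Nat.card (XM_22726 m) : ℝ) := by
  classical
  filter_upwards [bad_rank] with m hm
  haveI : Fintype (XM_22726 m) := Fintype.ofFinite _
  have h1 : Nat.card {M : XM_22726 m // ¬ Good M.1} ≤ ∑ r ∈ range (m + 1), (BadF m r).card := by
    rw [Nat.card_eq_fintype_card, Fintype.card_subtype]
    rw [← Finset.card_image_of_injective _ bs_inj_22726]
    refine le_trans (Finset.card_le_card ?_) Finset.card_biUnion_le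
    intro B hB
    rw [Finset.mem_image] at hB
    obtain ⟨M, hM, rfl⟩ := hB
    rw [Finset.mem_filter] at hM
    have hM2 := hM.2
    unfold Good at hM2
    push Not at hM2
    obtain ⟨r, hr, hbad⟩ := hM2
    rw [mem_biUnion]
    refine ⟨r, ?_, ?_⟩
    · rw [Finset.mem_range]
      obtain ⟨r', hr', hB'⟩ := bs_isBF_22726 M.1
      have := isBF_unique_22726 hr hB'
      omega
    · unfold BadF
      refine mem_filter.2 ⟨mem_BF.2 hr, ?_⟩
      rintro ⟨h1, h2⟩
      have := hbad h1
      omega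
  have h1' : (Nat.card {M : XM_22726 m // ¬ Good M.1} : ℝ) ≤
      ∑ r ∈ range (m + 1), ((BadF m r).card : ℝ) := by exact_mod_cast h1
  calc (Nat.card {M : XM_22726 m // ¬ Good M.1} : ℝ) * 2 ^ (m ^ 2)
      ≤ (∑ r ∈ range (m + 1), ((BadF m r).card : ℝ)) * 2 ^ (m ^ 2) :=
        mul_le_mul_of_nonneg_right h1' (by positivity)
    _ = ∑ r ∈ range (m + 1), ((BadF m r).card : ℝ) * 2 ^ (m ^ 2) := by rw [sum_mul]
    _ ≤ ∑ r ∈ range (m + 1), mm m :=
        sum_le_sum (fun r hr => hm r (by have := Finset.mem_range.1 hr; omega))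
    _ = ((m : ℝ) + 1) * mm m := by rw [sum_const, card_range, nsmul_eq_mul]; push_cast; ring
    _ ≤ _ := mul_le_mul_of_nonneg_left (mm_le_22726 m) (by positivity)

theorem XM_pos (m : ℕ) : 0 < Nat.card (XM_22726 m) := by
  haveI : Nonempty (XM_22726 m) := ⟨⟨Matroid.freeOn Set.univ, rfl⟩⟩
  exact Nat.card_pos

/-- properties implied by `Good` hold for almost all matroids; with an explicit rate -/
theorem almost_all (P : ∀ m : ℕ, Matroid (Fin m) → Prop)
    (h : ∀ᶠ m : ℕ in atTop, ∀ M : Matroid (Fin m), M.E = Set.univ → Good M → P m M) :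
    ∀ᶠ m : ℕ in atTop, (1 - ((m : ℝ) + 1) / 2 ^ (m ^ 2)) ≤
      (Nat.card {M : Matroid (Fin m) // M.E = Set.univ ∧ P m M} : ℝ) /
        (Nat.card {M : Matroid (Fin m) // M.E = Set.univ} : ℝ) := by
  classical
  filter_upwards [h, bad_total] with m hm hb
  haveI : Fintype (XM_22726 m) := Fintype.ofFinite _
  have e1 : Nat.card {M : Matroid (Fin m) // M.E = Set.univ ∧ P m M} =
      Nat.card {M : XM_22726 m // P m M.1} :=
    Nat.card_congr (Equiv.subtypeSubtypeEquivSubtypeInter
      (fun M : Matroid (Fin m) => M.E = Set.univ) (fun M => P m M)).symm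
  have e2 : Nat.card {M : XM_22726 m // P m M.1} + Nat.card {M : XM_22726 m // ¬ P m M.1} =
      Nat.card (XM_22726 m) := by
    rw [Nat.card_eq_fintype_card, Nat.card_eq_fintype_card, Nat.card_eq_fintype_card,
      Fintype.card_subtype, Fintype.card_subtype]
    exact card_filter_add_card_filter_not (s := (univ : Finset (XM_22726 m))) (fun M => P m M.1)
  have e3 : Nat.card {M : XM_22726 m // ¬ P m M.1} ≤ Nat.card {M : XM_22726 m // ¬ Good M.1} := by
    rw [Nat.card_eq_fintype_card, Nat.card_eq_fintype_card,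
      Fintype.card_subtype, Fintype.card_subtype]
    apply card_le_card
    intro M hM
    rw [Finset.mem_filter] at hM ⊢
    exact ⟨Finset.mem_univ _, fun hg => hM.2 (hm M.1 M.2 hg)⟩
  have hX : (0 : ℝ) < (Nat.card (XM_22726 m) : ℝ) := by exact_mod_cast XM_pos m
  rw [e1]
  have e2' : (Nat.card {M : XM_22726 m // P m M.1} : ℝ) +
      (Nat.card {M : XM_22726 m // ¬ P m M.1} : ℝ) = (Nat.card (XM_22726 m) : ℝ) := by
    exact_mod_cast e2
  have e3' : (Nat.card {M : XM_22726 m // ¬ P m M.1} : ℝ) ≤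
      (Nat.card {M : XM_22726 m // ¬ Good M.1} : ℝ) := by exact_mod_cast e3
  have h2 : (0 : ℝ) < 2 ^ (m ^ 2) := by positivity
  show _ ≤ (Nat.card {M : XM_22726 m // P m M.1} : ℝ) / (Nat.card (XM_22726 m) : ℝ)
  rw [le_div_iff₀ hX]
  have h3 : (Nat.card {M : XM_22726 m // ¬ Good M.1} : ℝ) ≤
      ((m : ℝ) + 1) / 2 ^ (m ^ 2) * (Nat.card (XM_22726 m) : ℝ) := by
    rw [div_mul_eq_mul_div, le_div_iff₀ h2]
    exact hb
  linarith

theorem rate_tendsto : Tendsto (fun m : ℕ => 1 - ((m : ℝ) + 1) / 2 ^ (m ^ 2)) atTop (nhds 1) := by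
  have h1 : Tendsto (fun m : ℕ => ((m : ℝ) + 1) / 2 ^ (m ^ 2)) atTop (nhds 0) := by
    have h2 : Tendsto (fun m : ℕ => 2 * ((m : ℝ) * (1 / 2 : ℝ) ^ m)) atTop (nhds 0) := by
      have := (tendsto_self_mul_const_pow_of_abs_lt_one (r := (1 / 2 : ℝ))
        (by rw [abs_of_pos (by norm_num : (0:ℝ) < 1/2)]; norm_num)).const_mul 2
      simpa using this
    refine squeeze_zero' ?_ ?_ h2
    · filter_upwards with m
      positivity
    · filter_upwards [eventually_ge_atTop 1] with m hm
      have hm' : (1 : ℝ) ≤ m := by exact_mod_cast hm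
      have h3 : (2 : ℝ) ^ m ≤ 2 ^ (m ^ 2) := by
        apply pow_le_pow_right₀ (by norm_num)
        nlinarith
      calc ((m : ℝ) + 1) / 2 ^ (m ^ 2) ≤ (2 * m) / 2 ^ m := by
            apply div_le_div₀ (by positivity) (by linarith) (by positivity) h3
        _ = 2 * ((m : ℝ) * (1 / 2 : ℝ) ^ m) := by
            rw [one_div, inv_pow]; field_simp
  have := (tendsto_const_nhds (x := (1 : ℝ)) (f := atTop (α := ℕ))).sub h1
  simpa using this

theorem almost_all_tendsto (P : ∀ m : ℕ, Matroid (Fin m) → Prop)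
    (h : ∀ᶠ m : ℕ in atTop, ∀ M : Matroid (Fin m), M.E = Set.univ → Good M → P m M) :
    Tendsto (fun m : ℕ => (Nat.card {M : Matroid (Fin m) // M.E = Set.univ ∧ P m M} : ℝ) /
        (Nat.card {M : Matroid (Fin m) // M.E = Set.univ} : ℝ)) atTop (nhds 1) := by
  refine tendsto_of_tendsto_of_tendsto_of_le_of_le' rate_tendsto tendsto_const_nhds
    (almost_all P h) ?_
  filter_upwards with m
  classical
  haveI : Fintype (XM_22726 m) := Fintype.ofFinite _
  have hX : (0 : ℝ) < (Nat.card (XM_22726 m) : ℝ) := by exact_mod_cast XM_pos m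
  have e1 : Nat.card {M : Matroid (Fin m) // M.E = Set.univ ∧ P m M} =
      Nat.card {M : XM_22726 m // P m M.1} :=
    Nat.card_congr (Equiv.subtypeSubtypeEquivSubtypeInter
      (fun M : Matroid (Fin m) => M.E = Set.univ) (fun M => P m M)).symm
  rw [e1]
  show (Nat.card {M : XM_22726 m // P m M.1} : ℝ) / (Nat.card (XM_22726 m) : ℝ) ≤ 1
  rw [div_le_one hX]
  have : Nat.card {M : XM_22726 m // P m M.1} ≤ Nat.card (XM_22726 m) :=
    Nat.card_le_card_of_injective _ Subtype.val_injective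
  exact_mod_cast this

end Pool.Agent.Helper6H
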