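import Pool.Agent.Helper46.A.G3

set_option autoImplicit false
set_option linter.unusedSectionVars false

namespace Pool.Agent.Helper6H

open Finset Filter Pool.Agent.Helper46 Pool.Agent.Helper46.A

theorem mem_St {n : ℕ} {V R : Fam n} : R ∈ St V ↔ R ⊆ V ∧ ∀ X ∈ R, ∀ Y ∈ R, ¬ Adj X Y := by
  unfold St
  rw [mem_filter, mem_powerset]

/-- free spots next to `R` -/
noncomputable def U1 {n : ℕ} (a : Fin n) (r : ℕ) (R : Fam n) : Fam n := by
  classical
  exact (powersetCard (r - 1) (univ.erase a)).filter (fun Z => ¬ ∃ Y ∈ R, Z ⊆ Y)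

theorem mem_U1 {n : ℕ} {a : Fin n} {r : ℕ} {R : Fam n} {Z : Finset (Fin n)} :
    Z ∈ U1 a r R ↔ a ∉ Z ∧ Z.card = r - 1 ∧ ¬ ∃ Y ∈ R, Z ⊆ Y := by
  classical
  unfold U1
  rw [mem_filter, mem_powersetCard, and_assoc]
  have : Z ⊆ univ.erase a ↔ a ∉ Z := by
    constructor
    · intro h ha
      exact (notMem_erase a _) (h ha)
    · intro h x hx
      rw [mem_erase]
      exact ⟨fun e => h (e ▸ hx), mem_univ _⟩
  rw [this]

theorem mem_pcG {n : ℕ} {a : Fin n} {k : ℕ} {X : Finset (Fin n)} :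
    X ∈ powersetCard k (univ.erase a) ↔ a ∉ X ∧ X.card = k := by
  rw [mem_powersetCard]
  have : X ⊆ univ.erase a ↔ a ∉ X := by
    constructor
    · intro h ha
      exact (notMem_erase a _) (h ha)
    · intro h x hx
      rw [mem_erase]
      exact ⟨fun e => h (e ▸ hx), mem_univ _⟩
  rw [this]

theorem glue_mem {n : ℕ} {a : Fin n} {r : ℕ} (hr : 1 ≤ r) {R X : Fam n}
    (hR : R ∈ St (powersetCard r (univ.erase a))) (hX : X ∈ St (U1 a r R)) :
    R ∪ X.image (insert a) ∈ St (powersetCard r (univ : Finset (Fin n))) := by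
  rw [mem_St] at hR hX ⊢
  have hR1 : ∀ Y ∈ R, a ∉ Y ∧ Y.card = r := fun Y hY => mem_pcG.1 (hR.1 hY)
  have hX1 : ∀ Z ∈ X, a ∉ Z ∧ Z.card = r - 1 ∧ ¬ ∃ Y ∈ R, Z ⊆ Y := fun Z hZ => mem_U1.1 (hX.1 hZ)
  have cross : ∀ Y ∈ R, ∀ Z ∈ X, ¬ (insert a Z \ Y).card = 1 := by
    intro Y hY Z hZ h
    obtain ⟨h1, h2, h3⟩ := hX1 Z hZ
    have h4 := (hR1 Y hY).1
    rw [insert_sdiff_of_notMem _ h4, card_insert_of_notMem (fun h => h1 (mem_sdiff.1 h).1)] at h
    have h5 : Z \ Y = ∅ := by rw [← card_eq_zero]; omega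
    exact h3 ⟨Y, hY, sdiff_eq_empty_iff_subset.1 h5⟩
  constructor
  · intro Y hY
    rw [mem_powersetCard]
    refine ⟨subset_univ _, ?_⟩
    rcases mem_union.1 hY with h | h
    · exact (hR1 Y h).2
    · obtain ⟨Z, hZ, rfl⟩ := mem_image.1 h
      obtain ⟨h1, h2, h3⟩ := hX1 Z hZ
      rw [card_insert_of_notMem h1]
      omega
  · intro Y hY Y' hY' hadj
    rcases mem_union.1 hY with h | h <;> rcases mem_union.1 hY' with h' | h'
    · exact hR.2 Y h Y' h' hadj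
    · obtain ⟨Z, hZ, rfl⟩ := mem_image.1 h'
      exact cross Y h Z hZ hadj.2
    · obtain ⟨Z, hZ, rfl⟩ := mem_image.1 h
      exact cross Y' h' Z hZ hadj.1
    · obtain ⟨Z, hZ, rfl⟩ := mem_image.1 h
      obtain ⟨Z', hZ', rfl⟩ := mem_image.1 h'
      apply hX.2 Z hZ Z' hZ'
      have e : ∀ S T : Finset (Fin n), a ∉ S → a ∉ T → insert a S \ insert a T = S \ T := by
        intro S T hS hT
        ext x
        rw [Finset.mem_sdiff, Finset.mem_sdiff, Finset.mem_insert, Finset.mem_insert]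
        constructor
        · rintro ⟨h1 | h1, h2⟩
          · exact absurd (Or.inl h1) h2
          · exact ⟨h1, fun h3 => h2 (Or.inr h3)⟩
        · rintro ⟨h1, h2⟩
          exact ⟨Or.inr h1, fun h3 => h3.elim (fun h4 => hS (h4 ▸ h1)) h2⟩
      obtain ⟨p1, p2⟩ := hadj
      rw [e _ _ (hX1 Z hZ).1 (hX1 Z' hZ').1] at p1
      rw [e _ _ (hX1 Z' hZ').1 (hX1 Z hZ).1] at p2
      exact ⟨p1, p2⟩

theorem glue_inj {n : ℕ} {a : Fin n} {R X R' X' : Fam n} (f1 : ∀ Y ∈ R, a ∉ Y)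
    (f2 : ∀ Z ∈ X, a ∉ Z) (f1' : ∀ Y ∈ R', a ∉ Y) (f2' : ∀ Z ∈ X', a ∉ Z)
    (h : R ∪ X.image (insert a) = R' ∪ X'.image (insert a)) : R ⊆ R' ∧ X ⊆ X' := by
  constructor
  · intro Y hY
    have : Y ∈ R' ∪ X'.image (insert a) := by rw [← h]; exact mem_union_left _ hY
    rcases mem_union.1 this with h1 | h1
    · exact h1
    · obtain ⟨Z, _, rfl⟩ := mem_image.1 h1
      exact absurd (mem_insert_self a Z) (f1 _ hY)
  · intro Z hZ
    have : insert a Z ∈ R' ∪ X'.image (insert a) := by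
      rw [← h]; exact mem_union_right _ (mem_image_of_mem _ hZ)
    rcases mem_union.1 this with h1 | h1
    · exact absurd (mem_insert_self a Z) (f1' _ h1)
    · obtain ⟨Z', hZ', he⟩ := mem_image.1 h1
      have : Z' = Z := by
        rw [← erase_insert (f2' Z' hZ'), ← erase_insert (f2 Z hZ), he]
      rw [← this]; exact hZ'

theorem fill1_count {n : ℕ} (a : Fin n) (r : ℕ) (hr : 1 ≤ r) :
    ∑ R ∈ St (powersetCard r (univ.erase a)), (St (U1 a r R)).card ≤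
      (St (powersetCard r (univ : Finset (Fin n)))).card := by
  classical
  rw [← card_sigma]
  refine card_le_card_of_injOn (fun p => p.1 ∪ p.2.image (insert a)) ?_ ?_
  · rintro ⟨R, X⟩ hp
    obtain ⟨h1, h2⟩ := mem_sigma.1 (mem_coe.1 hp)
    exact mem_coe.2 (glue_mem hr h1 h2)
  · rintro ⟨R, X⟩ hp ⟨R', X'⟩ hp' heq
    obtain ⟨h1, h2⟩ := mem_sigma.1 (mem_coe.1 hp)
    obtain ⟨h1', h2'⟩ := mem_sigma.1 (mem_coe.1 hp')
    simp only at h1 h2 h1' h2' heq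
    have f1 : ∀ Y ∈ R, a ∉ Y := fun Y hY => (mem_pcG.1 ((mem_St.1 h1).1 hY)).1
    have f1' : ∀ Y ∈ R', a ∉ Y := fun Y hY => (mem_pcG.1 ((mem_St.1 h1').1 hY)).1
    have f2 : ∀ Y ∈ X, a ∉ Y := fun Y hY => (mem_U1.1 ((mem_St.1 h2).1 hY)).1
    have f2' : ∀ Y ∈ X', a ∉ Y := fun Y hY => (mem_U1.1 ((mem_St.1 h2').1 hY)).1
    have g1 := glue_inj f1 f2 f1' f2' heq
    have g2 := glue_inj f1' f2' f1 f2 heq.symm
    have e1 : R = R' := Subset.antisymm g1.1 g2.1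
    have e2 : X = X' := Subset.antisymm g1.2 g2.2
    subst e1; subst e2; rfl

/-- Jensen for `2 ^ x` -/
theorem jensen2 {ι : Type*} (s : Finset ι) (x : ι → ℝ) (c : ℝ) (h : (s.card : ℝ) * c ≤ ∑ i ∈ s, x i) :
    (s.card : ℝ) * (2 : ℝ) ^ c ≤ ∑ i ∈ s, (2 : ℝ) ^ (x i) := by
  have hlog : 0 < Real.log 2 := Real.log_pos (by norm_num)
  have key : ∀ i ∈ s, (2 : ℝ) ^ c + (2 : ℝ) ^ c * Real.log 2 * (x i - c) ≤ (2 : ℝ) ^ (x i) := by
    intro i _
    have e1 : (2 : ℝ) ^ (x i) = (2 : ℝ) ^ c * Real.exp ((x i - c) * Real.log 2) := by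
      rw [Real.rpow_def_of_pos (by norm_num), Real.rpow_def_of_pos (by norm_num), ← Real.exp_add]
      congr 1
      ring
    rw [e1]
    have h2 := Real.add_one_le_exp ((x i - c) * Real.log 2)
    have h3 : (0 : ℝ) < (2 : ℝ) ^ c := by positivity
    nlinarith [mul_le_mul_of_nonneg_left h2 h3.le]
  have h2 := sum_le_sum key
  rw [sum_add_distrib, sum_const, nsmul_eq_mul, ← mul_sum, sum_sub_distrib, sum_const,
    nsmul_eq_mul] at h2
  have h3 : 0 ≤ (2 : ℝ) ^ c * Real.log 2 * (∑ i ∈ s, x i - (s.card : ℝ) * c) :=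
    mul_nonneg (by positivity) (by linarith)
  linarith

theorem fill1 {n : ℕ} (hn : 0 < n) (a : Fin n) (r : ℕ) (hr : 1 ≤ r)
    (h1 : ∀ Z ∈ powersetCard (r - 1) (univ.erase a),
      (((St (powersetCard r (univ.erase a))).filter
        (fun R => ∃ Y ∈ R, Z ⊆ Y)).card : ℝ) ≤
      3 / 5 * ((St (powersetCard r (univ.erase a))).card : ℝ)) :
    ((St (powersetCard r (univ.erase a))).card : ℝ) *
      (2 : ℝ) ^ ((2 / 5 : ℝ) * ((n - 1).choose (r - 1) : ℝ) / n) ≤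
    ((St (powersetCard r (univ : Finset (Fin n)))).card : ℝ) := by
  classical
  have hn' : (0 : ℝ) < n := by exact_mod_cast hn
  set S := St (powersetCard r (univ.erase a)) with hS
  -- double counting
  have hdc : (S.card : ℝ) * ((2 / 5 : ℝ) * ((n - 1).choose (r - 1) : ℝ)) ≤
      ∑ R ∈ S, ((U1 a r R).card : ℝ) := by
    have e1 : ∀ R ∈ S, ((U1 a r R).card : ℝ) =
        ∑ Z ∈ powersetCard (r - 1) (univ.erase a), (if (¬ ∃ Y ∈ R, Z ⊆ Y) then (1 : ℝ) else 0) := by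
      intro R _
      unfold U1
      rw [card_filter]
      push_cast
      apply sum_congr rfl
      intro Z _
      congr
    rw [sum_congr rfl e1, sum_comm]
    have e2 : ∀ Z ∈ powersetCard (r - 1) (univ.erase a), (2 / 5 : ℝ) * (S.card : ℝ) ≤
        ∑ R ∈ S, (if (¬ ∃ Y ∈ R, Z ⊆ Y) then (1 : ℝ) else 0) := by
      intro Z hZ
      have h2 := h1 Z hZ
      have h3 : (∑ R ∈ S, (if (¬ ∃ Y ∈ R, Z ⊆ Y) then (1 : ℝ) else 0)) =
          ((S.filter (fun R => ¬ ∃ Y ∈ R, Z ⊆ Y)).card : ℝ) := by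
        rw [card_filter]; push_cast; rfl
      rw [h3]
      have h4 := card_filter_add_card_filter_not (s := S) (fun R => ∃ Y ∈ R, Z ⊆ Y)
      have h5 : ((S.filter (fun R => ∃ Y ∈ R, Z ⊆ Y)).card : ℝ) +
          ((S.filter (fun R => ¬ ∃ Y ∈ R, Z ⊆ Y)).card : ℝ) = S.card := by exact_mod_cast h4
      have h6 : ((S.filter (fun R => ∃ Y ∈ R, Z ⊆ Y)).card : ℝ) ≤ 3 / 5 * (S.card : ℝ) := by
        convert h2
      linarith
    have h3 := sum_le_sum e2
    rw [sum_const, card_powersetCard, card_erase_of_mem (mem_univ a), card_univ, Fintype.card_fin,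
      nsmul_eq_mul] at h3
    linarith
  have hj := jensen2 S (fun R => ((U1 a r R).card : ℝ) / n)
    ((2 / 5 : ℝ) * ((n - 1).choose (r - 1) : ℝ) / n) (by
      rw [← sum_div, le_div_iff₀ hn']
      calc (S.card : ℝ) * ((2 / 5 : ℝ) * ((n - 1).choose (r - 1) : ℝ) / n) * n
          = (S.card : ℝ) * ((2 / 5 : ℝ) * ((n - 1).choose (r - 1) : ℝ)) := by field_simp
        _ ≤ _ := hdc)
  refine hj.trans ?_
  calc ∑ R ∈ S, (2 : ℝ) ^ (((U1 a r R).card : ℝ) / n) ≤ ∑ R ∈ S, ((St (U1 a r R)).card : ℝ) :=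
        sum_le_sum (fun R _ => B1.st_lower hn _)
    _ ≤ _ := by exact_mod_cast fill1_count a r hr

end Pool.Agent.Helper6H
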