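import Pool.Agent.Helper6H.C1

set_option autoImplicit false
set_option linter.unusedSectionVars false

namespace Pool.Agent.Helper6H

open Finset Filter Pool.Agent.Helper46 Pool.Agent.Helper46.A

theorem choose_pred {n r : ℕ} (hn : 1 ≤ n) (hr : 1 ≤ r) (h1 : n ≤ 8 * r) :
    (n.choose r : ℝ) / 8 ≤ ((n - 1).choose (r - 1) : ℝ) := by
  obtain ⟨m, rfl⟩ : ∃ m, n = m + 1 := ⟨n - 1, by omega⟩
  obtain ⟨s, rfl⟩ : ∃ s, r = s + 1 := ⟨r - 1, by omega⟩
  simp only [Nat.add_sub_cancel]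
  have e1 : (m + 1) * m.choose s = (m + 1).choose (s + 1) * (s + 1) :=
    Nat.add_one_mul_choose_eq m s
  have e1' : ((m : ℝ) + 1) * (m.choose s : ℝ) = ((m + 1).choose (s + 1) : ℝ) * (s + 1) := by
    exact_mod_cast e1
  have h1' : ((m : ℝ) + 1) ≤ 8 * (s + 1) := by exact_mod_cast h1
  have hA : (0 : ℝ) ≤ ((m + 1).choose (s + 1) : ℝ) := by positivity
  have hm0 : (0 : ℝ) < (m : ℝ) + 1 := by positivity
  have : ((m : ℝ) + 1) * (((m + 1).choose (s + 1) : ℝ) / 8) ≤ ((m : ℝ) + 1) * (m.choose s : ℝ) := by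
    rw [e1']
    nlinarith
  exact le_of_mul_le_mul_left this hm0

theorem loop_bound : ∀ᶠ n : ℕ in atTop, ∀ (a : Fin n) (r : ℕ), n ≤ 8 * r → 8 * r ≤ 7 * n →
    AN.N0 n ≤ 4 * n.choose r →
    ((St (powersetCard r (univ.erase a))).card : ℝ) * (2 : ℝ) ^ ((AN.N0 n : ℝ) / n / 80) ≤
      ((St (powersetCard r (univ : Finset (Fin n)))).card : ℝ) := by
  obtain ⟨m0, hm0⟩ := eventually_atTop.1 E6.avg
  filter_upwards [eventually_ge_atTop (m0 + 2), eventually_ge_atTop 100] with n hnm hn a r h1 h2 hC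
  have hn0 : (0 : ℝ) < n := by exact_mod_cast (by omega : 0 < n)
  set G := (univ : Finset (Fin n)).erase a with hG
  have hGc : G.card = n - 1 := by
    rw [hG, card_erase_of_mem (mem_univ a), card_univ, Fintype.card_fin]
  have hE := hm0 (n - 1) (by omega) n G hGc
  have hE1 := hE r (by omega) (by omega) (fun a θ ha hθ V h => kwE a θ ha hθ V h)
    (fun A hA hc => A3.super_rows G r (by omega) (by omega) (1 / 10) (by norm_num) A hA hc)
    (fun A hA hc => A4.super_cols G r (by omega) (1 / 10) (by norm_num)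
      (fun j hj1 hj2 A hA hc => A3.super_rows G j hj1 hj2 (1 / 10) (by norm_num) A hA hc) A hA hc)
  have c1 := fun Z hZ => B2.cover_up G r (by omega) (by omega) hE1.1 Z hZ
  have hf := fill1 (by omega) a r (by omega) c1
  refine le_trans ?_ hf
  apply mul_le_mul_of_nonneg_left _ (by positivity)
  apply Real.rpow_le_rpow_of_exponent_le (by norm_num)
  have e1 := choose_pred (n := n) (r := r) (by omega) (by omega) h1
  have e2 : (AN.N0 n : ℝ) ≤ 4 * (n.choose r : ℝ) := by exact_mod_cast hC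
  rw [div_div, mul_comm (n : ℝ) 80, ← div_div]
  apply div_le_div_of_nonneg_right _ hn0.le
  linarith

open Classical in
theorem loop_count {n r l : ℕ} (hl : 1 ≤ l) (a : Fin n) :
    ((BF n r).filter (fun B => ∀ X ∈ B, a ∉ X)).card ≤
      ((BF n r).image (info l r)).card * (St (powersetCard r (univ.erase a))).card := by
  rw [← card_product]
  have htie : ∀ B ∈ BF n r, ∀ X Y : Finset (Fin n), tie (info l r B) X Y → (X ∈ B ↔ Y ∈ B) :=
    fun B hB X Y h => C2.tie_mem (mem_BF.1 hB) h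
  have hadj : ∀ B ∈ BF n r, ∀ X Y : Finset (Fin n), X.card = r → Y.card = r → X ∉ B → Y ∉ B →
      ¬ Q (info l r B) X → ¬ Q (info l r B) Y → Adj X Y → tie (info l r B) X Y :=
    fun B hB X Y h1 h2 h3 h4 h5 h6 h7 => adj_tie (mem_BF.1 hB) h1 h2 h3 h4 h5 h6 h7
  refine card_le_card_of_injOn (fun B => (info l r B, D2.F1R l r B ∅)) ?_ ?_
  · intro B hB
    obtain ⟨hB1, hB2⟩ := mem_filter.1 (mem_coe.1 hB)
    refine mem_coe.2 (mem_product.2 ⟨mem_image_of_mem _ hB1, ?_⟩)
    have h1 := D2.F1_St (htie B hB1) (hadj B hB1) (empty_subset (nt l r B))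
    have h2 : ∀ X ∈ D2.F1R l r B ∅, X ∈ UU l r B := fun X hX =>
      D2.F1_R_sub (htie B hB1) (empty_subset _) hX
    show D2.F1R l r B ∅ ∈ St (powersetCard r (univ.erase a))
    rw [mem_St] at h1 ⊢
    refine ⟨fun X hX => ?_, h1.2⟩
    have h3 := D2.F1_mem_UU.1 (h2 X hX)
    rw [mem_pcG]
    refine ⟨fun ha => h3.2.2 ⟨X, ?_, D2.F1_refl _ _⟩, h3.1⟩
    left
    refine ⟨{a}, ?_, singleton_subset_iff.2 ha⟩
    show {a} ∈ shortC l B
    unfold shortC
    rw [mem_filter]
    refine ⟨mem_univ _, ⟨?_, ?_⟩, by rw [card_singleton]; exact hl⟩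
    · rintro ⟨Y, hY, haY⟩
      exact hB2 Y hY (haY (mem_singleton_self a))
    · intro y hy
      obtain ⟨Z, hZ⟩ := (mem_BF.1 hB1).ne
      refine ⟨Z, hZ, ?_⟩
      rw [mem_singleton] at hy
      rw [hy, erase_singleton]
      exact empty_subset _
  · intro B hB B' hB' heq
    obtain ⟨hB1, hB2⟩ := mem_filter.1 (mem_coe.1 hB)
    obtain ⟨hB1', hB2'⟩ := mem_filter.1 (mem_coe.1 hB')
    have hI : info l r B = info l r B' := congrArg Prod.fst heq
    have hR : D2.F1R l r B ∅ = D2.F1R l r B' ∅ := congrArg Prod.snd heq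
    have hU : ∀ X, X ∈ UU l r B ↔ X ∈ UU l r B' := by
      intro X
      rw [D2.F1_UU_iff (htie B hB1) (empty_subset _), D2.F1_UU_iff (htie B' hB1') (empty_subset _),
        hI, hR]
    ext X
    rw [D2.F1_mem_B (mem_BF.1 hB1).card (fun X hX h => C1.Q_not_mem (mem_BF.1 hB1) hX h)
        (htie B hB1),
      D2.F1_mem_B (mem_BF.1 hB1').card (fun X hX h => C1.Q_not_mem (mem_BF.1 hB1') hX h)
        (htie B' hB1'), hU X, hI]

/-- many nontrivial classes -/
theorem nt_count {n r l K : ℕ} :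
    ((BF n r).filter (fun B => K ≤ (nt l r B).card)).card * 2 ^ K ≤
      ((BF n r).image (info l r)).card * (St (powersetCard r (univ : Finset (Fin n)))).card := by
  classical
  have hQ : ∀ B ∈ BF n r, ∀ X : Finset (Fin n), X.card = r → Q (info l r B) X → X ∉ B :=
    fun B hB X hX h => C1.Q_not_mem (mem_BF.1 hB) hX h
  have htie : ∀ B ∈ BF n r, ∀ X Y : Finset (Fin n), tie (info l r B) X Y → (X ∈ B ↔ Y ∈ B) :=
    fun B hB X Y h => C2.tie_mem (mem_BF.1 hB) h
  have hadj : ∀ B ∈ BF n r, ∀ X Y : Finset (Fin n), X.card = r → Y.card = r → X ∉ B → Y ∉ B →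
      ¬ Q (info l r B) X → ¬ Q (info l r B) Y → Adj X Y → tie (info l r B) X Y :=
    fun B hB X Y h1 h2 h3 h4 h5 h6 h7 => adj_tie (mem_BF.1 hB) h1 h2 h3 h4 h5 h6 h7
  have f1 := D2.F1 (l := l) hQ htie hadj
  refine le_trans ?_ f1
  rw [← smul_eq_mul, ← sum_const]
  calc ∑ B ∈ (BF n r).filter (fun B => K ≤ (nt l r B).card), 2 ^ K
      ≤ ∑ B ∈ (BF n r).filter (fun B => K ≤ (nt l r B).card), 2 ^ (nt l r B).card := by
        apply sum_le_sum
        intro B hB
        exact Nat.pow_le_pow_right (by norm_num) (mem_filter.1 hB).2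
    _ ≤ _ := sum_le_sum_of_subset (filter_subset _ _)

/-- all base families -/
theorem all_count {n r l : ℕ} :
    (BF n r).card ≤
      ((BF n r).image (info l r)).card * (St (powersetCard r (univ : Finset (Fin n)))).card := by
  have h := nt_count (n := n) (r := r) (l := l) (K := 0)
  simpa using h

end Pool.Agent.Helper6H
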