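import Pool.Agent.Helper6H.C2

set_option autoImplicit false
set_option linter.unusedSectionVars false

namespace Pool.Agent.Helper6H

open Finset Filter Pool.Agent.Helper46 Pool.Agent.Helper46.A

open Classical in
/-- nonbases that are not isolated -/
noncomputable def Kp {n : ℕ} (l r : ℕ) (B : Fam n) : Fam n :=
  (powersetCard r univ).filter (fun X => X ∉ B ∧ X ∉ sg l r B)

theorem mem_Kp {n l r : ℕ} {B : Fam n} {X : Finset (Fin n)} :
    X ∈ Kp l r B ↔ X.card = r ∧ X ∉ B ∧ X ∉ sg l r B := by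
  classical
  unfold Kp
  rw [mem_filter, mem_powersetCard]
  simp

theorem tie_of {n r l : ℕ} {B : Fam n} (hB : IsBF r B) (X Y : Finset (Fin n))
    (h : tie (info l r B) X Y) : X ∈ B ↔ Y ∈ B := C2.tie_mem hB h

theorem mem_B {n r l : ℕ} {B : Fam n} (hB : IsBF r B) (X : Finset (Fin n)) :
    X ∈ B ↔ X.card = r ∧ ¬ Kn (info l r B) X ∧ X ∉ UU l r B :=
  D2.F1_mem_B hB.card (fun _ hX h => C1.Q_not_mem hB hX h) (tie_of hB) X

theorem Kp_iff {n r l : ℕ} {B : Fam n} (hB : IsBF r B) (X : Finset (Fin n)) :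
    X ∈ Kp l r B ↔ X.card = r ∧ (Kn (info l r B) X ∨ rep (info l r B) X ∈ nt l r B) := by
  rw [mem_Kp]
  constructor
  · rintro ⟨h1, h2, h3⟩
    refine ⟨h1, ?_⟩
    by_cases hk : Kn (info l r B) X
    · exact Or.inl hk
    · right
      have hU : X ∈ UU l r B := D2.F1_mem_UU.2 ⟨h1, h2, hk⟩
      rcases (D4.F3_mem_UU_iff (tie_of hB) X).1 hU with h | h
      · exact absurd h h3
      · exact h
  · rintro ⟨h1, h2 | h2⟩
    · refine ⟨h1, fun h => ((mem_B (l := l) hB X).1 h).2.1 h2, fun h => ?_⟩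
      exact (D2.F1_mem_UU.1 (D2.F1_mem_sg.1 h).1).2.2 h2
    · have hU : X ∈ UU l r B := (D4.F3_mem_UU_iff (tie_of hB) X).2 (Or.inr h2)
      refine ⟨h1, (D2.F1_mem_UU.1 hU).2.1, fun h => ?_⟩
      have h3 := (D2.F1_mem_sg.1 h).2
      have h4 := h3 _ (D2.F1_symm (D2.F1_rep_rel (info l r B) X))
      rw [h4] at h2
      obtain ⟨_, _, Y, hne, hr⟩ := D2.F1_mem_nt.1 h2
      exact hne (h3 Y hr)

theorem adj_form {n : ℕ} {X Y : Finset (Fin n)} (h : Adj X Y) :
    ∃ f ∈ X, ∃ g, g ∉ X ∧ Y = insert g (X.erase f) := by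
  obtain ⟨h1, h2⟩ := h
  obtain ⟨f, hf⟩ := Finset.card_eq_one.1 h1
  obtain ⟨g, hg⟩ := Finset.card_eq_one.1 h2
  have hfX : f ∈ X ∧ f ∉ Y := by
    have : f ∈ X \ Y := by rw [hf]; simp
    simpa using this
  have hgY : g ∈ Y ∧ g ∉ X := by
    have : g ∈ Y \ X := by rw [hg]; simp
    simpa using this
  refine ⟨f, hfX.1, g, hgY.2, ?_⟩
  ext x
  rw [Finset.mem_insert, Finset.mem_erase]
  constructor
  · intro hx
    by_cases hxX : x ∈ X
    · right
      refine ⟨?_, hxX⟩
      rintro rfl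
      exact hfX.2 hx
    · left
      have : x ∈ Y \ X := Finset.mem_sdiff.2 ⟨hx, hxX⟩
      rw [hg] at this
      exact Finset.mem_singleton.1 this
  · rintro (rfl | ⟨hx1, hx2⟩)
    · exact hgY.1
    · by_contra hxY
      have : x ∈ X \ Y := Finset.mem_sdiff.2 ⟨hx2, hxY⟩
      rw [hf] at this
      exact hx1 (Finset.mem_singleton.1 this)

theorem sg_St {n r l : ℕ} {B : Fam n} (hB : IsBF r B) :
    sg l r B ∈ St (powersetCard r (univ : Finset (Fin n))) := by
  rw [mem_St]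
  constructor
  · intro X hX
    rw [mem_powersetCard]
    exact ⟨subset_univ _, (D2.F1_mem_UU.1 (D2.F1_mem_sg.1 hX).1).1⟩
  · intro X hX Y hY hA
    obtain ⟨x1, x2⟩ := D2.F1_mem_sg.1 hX
    obtain ⟨y1, y2⟩ := D2.F1_mem_sg.1 hY
    rw [D2.F1_mem_UU] at x1 y1
    have hnQ : ∀ Z, ¬ Kn (info l r B) Z → ¬ Q (info l r B) Z := fun Z hZ hq =>
      hZ ⟨Z, hq, Relation.EqvGen.refl Z⟩
    have ht := adj_tie hB x1.1 y1.1 x1.2.1 y1.2.1 (hnQ X x1.2.2) (hnQ Y y1.2.2) hA
    have hYX : Y = X := x2 Y (Relation.EqvGen.rel _ _ ht)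
    rw [hYX] at hA
    have := hA.1
    rw [Finset.sdiff_self, Finset.card_empty] at this
    exact zero_ne_one this

theorem sg_nbr {n r l : ℕ} (hl : 1 ≤ l) {B : Fam n} (hB : IsBF r B)
    (hlp : ∀ a, ∃ X ∈ B, a ∈ X) (hcl : ∀ a, ∃ X ∈ B, a ∉ X) {X Y : Finset (Fin n)}
    (hX : X ∈ sg l r B) (h : Adj X Y) : Y ∈ B := by
  obtain ⟨f, hf, g, hg, rfl⟩ := adj_form h
  have key := D1.sg_relax (X := X) hl hB
    (fun X hX h => C1.Q_not_mem hB hX h)
    (fun X hX hXB hQ f hf g hg hY => C3.explained hB hX hXB hQ hf hg hY) hX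
  rcases key.2.2.2.2 f hf g hg with h | h | h
  · exact h
  · obtain ⟨Z, hZ, hgZ⟩ := hlp g
    exact absurd ⟨Z, hZ, singleton_subset_iff.2 hgZ⟩ h
  · obtain ⟨Z, hZ, hfZ⟩ := hcl f
    exact absurd (h Z hZ) hfZ

theorem kp_count {n r l K : ℕ} (hl : 1 ≤ l) :
    ∑ B ∈ (BF n r).filter (fun B => (nt l r B).card ≤ K ∧ (∀ a, ∃ X ∈ B, a ∈ X) ∧
      (∀ a, ∃ X ∈ B, a ∉ X)), (St (Kp l r B)).card ≤
      ((BF n r).image (info l r)).card * SB n K *
        (St (powersetCard r (univ : Finset (Fin n)))).card := by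
  classical
  let T : Finset (Info n × Fam n × Fam n) :=
    ((BF n r).image (info l r)) ×ˢ ((univ : Finset (Fam n)).filter (fun S => S.card ≤ K)) ×ˢ
      (St (powersetCard r (univ : Finset (Fin n))))
  have hT : T.card ≤ ((BF n r).image (info l r)).card * SB n K *
      (St (powersetCard r (univ : Finset (Fin n)))).card := by
    simp only [T, Finset.card_product]
    rw [mul_assoc]
    exact Nat.mul_le_mul_left _ (Nat.mul_le_mul_right _ D4.F3_SB)
  refine le_trans ?_ hT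
  rw [← card_sigma]
  refine Finset.card_le_card_of_injOn (fun p => (info l r p.1, nt l r p.1, sg l r p.1 ∪ p.2)) ?_ ?_
  · rintro ⟨B, W⟩ hp
    obtain ⟨hB, hW⟩ := mem_sigma.1 (mem_coe.1 hp)
    obtain ⟨hB1, hB2, hB3, hB4⟩ := mem_filter.1 hB
    simp only at hW
    have hBF := mem_BF.1 hB1
    refine mem_coe.2 (mem_product.2 ⟨mem_image_of_mem _ hB1, mem_product.2
      ⟨mem_filter.2 ⟨mem_univ _, hB2⟩, ?_⟩⟩)
    show sg l r B ∪ W ∈ St (powersetCard r univ)
    have h1 := mem_St.1 (sg_St (l := l) hBF)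
    have h2 := mem_St.1 hW
    rw [mem_St]
    constructor
    · intro X hX
      rcases mem_union.1 hX with h | h
      · exact h1.1 h
      · have := mem_Kp.1 (h2.1 h)
        rw [mem_powersetCard]
        exact ⟨subset_univ _, this.1⟩
    · intro X hX Y hY hA
      rcases mem_union.1 hX with h | h <;> rcases mem_union.1 hY with h' | h'
      · exact h1.2 X h Y h' hA
      · exact (mem_Kp.1 (h2.1 h')).2.1 (sg_nbr hl hBF hB3 hB4 h hA)
      · exact (mem_Kp.1 (h2.1 h)).2.1 (sg_nbr hl hBF hB3 hB4 h' ⟨hA.2, hA.1⟩)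
      · exact h2.2 X h Y h' hA
  · rintro ⟨B, W⟩ hp ⟨B', W'⟩ hp' heq
    obtain ⟨hB, hW⟩ := mem_sigma.1 (mem_coe.1 hp)
    obtain ⟨hB', hW'⟩ := mem_sigma.1 (mem_coe.1 hp')
    obtain ⟨hB1, hB2, hB3, hB4⟩ := mem_filter.1 hB
    obtain ⟨hB1', hB2', hB3', hB4'⟩ := mem_filter.1 hB'
    simp only at hW hW'
    have hBF := mem_BF.1 hB1
    have hBF' := mem_BF.1 hB1'
    have e1 : info l r B = info l r B' := congrArg Prod.fst heq
    have e2 : nt l r B = nt l r B' := congrArg (fun p => p.2.1) heq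
    have e3 : sg l r B ∪ W = sg l r B' ∪ W' := congrArg (fun p => p.2.2) heq
    have eK : ∀ X, X ∈ Kp l r B ↔ X ∈ Kp l r B' := by
      intro X
      rw [Kp_iff hBF, Kp_iff hBF', e1, e2]
    have hWsub := (mem_St.1 hW).1
    have hWsub' := (mem_St.1 hW').1
    have w1 : ∀ X, X ∈ W ↔ X ∈ sg l r B ∪ W ∧ X ∈ Kp l r B := by
      intro X
      constructor
      · intro h; exact ⟨mem_union_right _ h, hWsub h⟩
      · rintro ⟨h1, h2⟩
        rcases mem_union.1 h1 with h | h
        · exact absurd h (mem_Kp.1 h2).2.2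
        · exact h
    have w1' : ∀ X, X ∈ W' ↔ X ∈ sg l r B' ∪ W' ∧ X ∈ Kp l r B' := by
      intro X
      constructor
      · intro h; exact ⟨mem_union_right _ h, hWsub' h⟩
      · rintro ⟨h1, h2⟩
        rcases mem_union.1 h1 with h | h
        · exact absurd h (mem_Kp.1 h2).2.2
        · exact h
    have s1 : ∀ X, X ∈ sg l r B ↔ X ∈ sg l r B ∪ W ∧ X ∉ Kp l r B := by
      intro X
      constructor
      · intro h; exact ⟨mem_union_left _ h, fun h2 => (mem_Kp.1 h2).2.2 h⟩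
      · rintro ⟨h1, h2⟩
        rcases mem_union.1 h1 with h | h
        · exact h
        · exact absurd (hWsub h) h2
    have s1' : ∀ X, X ∈ sg l r B' ↔ X ∈ sg l r B' ∪ W' ∧ X ∉ Kp l r B' := by
      intro X
      constructor
      · intro h; exact ⟨mem_union_left _ h, fun h2 => (mem_Kp.1 h2).2.2 h⟩
      · rintro ⟨h1, h2⟩
        rcases mem_union.1 h1 with h | h
        · exact h
        · exact absurd (hWsub' h) h2
    have eW : W = W' := by
      ext X
      rw [w1, w1', e3, eK]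
    have eS : sg l r B = sg l r B' := by
      ext X
      rw [s1, s1', e3, eK]
    have eU : UU l r B = UU l r B' := by
      ext X
      rw [D4.F3_mem_UU_iff (tie_of hBF), D4.F3_mem_UU_iff (tie_of hBF'), eS, e2, e1]
    have eB : B = B' := by
      ext X
      rw [mem_B (l := l) hBF, mem_B (l := l) hBF', eU, e1]
    subst eB
    subst eW
    rfl

/-- a stable family is small -/
theorem St_card {n r : ℕ} (hr : 1 ≤ r) (hrn : r ≤ n) {R : Fam n}
    (hR : R ∈ St (powersetCard r (univ : Finset (Fin n)))) :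
    R.card * (n - r + 1) ≤ n.choose r := by
  classical
  obtain ⟨k, rfl⟩ : ∃ k, r = k + 1 := ⟨r - 1, by omega⟩
  rw [mem_St] at hR
  have h1 := A3.h208_sumd (univ : Finset (Fin n)) R hR.1
  have h2 : ∑ Z ∈ powersetCard k (univ : Finset (Fin n)), (R.filter (fun Y => Z ⊆ Y)).card ≤
      ∑ Z ∈ powersetCard k (univ : Finset (Fin n)), 1 := by
    apply sum_le_sum
    intro Z hZ
    rw [card_le_one]
    intro X hX Y hY
    by_contra hne
    rw [mem_filter] at hX hY
    have := (A3.h208_adj_of Z X Y (mem_powersetCard.1 hZ).2 (mem_powersetCard.1 (hR.1 hX.1)).2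
      (mem_powersetCard.1 (hR.1 hY.1)).2 hne hX.2 hY.2).2
    exact hR.2 X hX.1 Y hY.1 this
  rw [h1, sum_const, card_powersetCard, card_univ, Fintype.card_fin, smul_eq_mul, mul_one] at h2
  have h3 := Nat.choose_succ_right_eq n k
  have e : n - (k + 1) + 1 = n - k := by omega
  rw [e]
  have h4 : (k + 1) * (R.card * (n - k)) ≤ (k + 1) * n.choose (k + 1) := by
    calc (k + 1) * (R.card * (n - k)) = ((k + 1) * R.card) * (n - k) := by ring
      _ ≤ n.choose k * (n - k) := Nat.mul_le_mul_right _ h2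
      _ = n.choose (k + 1) * (k + 1) := h3.symm
      _ = _ := by ring
  exact Nat.le_of_mul_le_mul_left h4 (by omega)

theorem Kp_card {n r l : ℕ} {B : Fam n} (hB : IsBF r B) :
    n.choose r ≤ B.card + (sg l r B).card + (Kp l r B).card := by
  classical
  have h : powersetCard r (univ : Finset (Fin n)) ⊆ B ∪ sg l r B ∪ Kp l r B := by
    intro X hX
    rw [mem_powersetCard] at hX
    by_cases h1 : X ∈ B
    · exact mem_union_left _ (mem_union_left _ h1)
    · by_cases h2 : X ∈ sg l r B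
      · exact mem_union_left _ (mem_union_right _ h2)
      · exact mem_union_right _ (mem_Kp.2 ⟨hX.2, h1, h2⟩)
  have h1 := card_le_card h
  rw [card_powersetCard, card_univ, Fintype.card_fin] at h1
  have h2 := card_union_le (B ∪ sg l r B) (Kp l r B)
  have h3 := card_union_le B (sg l r B)
  omega

end Pool.Agent.Helper6H
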