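import Mathlib

set_option autoImplicit false

namespace Pool.Agent.Helper6H

open Polynomial

/-- the rank of a matroid on `Fin m` -/
noncomputable def rk {m : ℕ} (M : Matroid (Fin m)) : ℕ := M.eRank.toNat

/-- `F_i`: the number of independent sets with `i` elements -/
noncomputable def Fv {m : ℕ} (M : Matroid (Fin m)) (i : ℕ) : ℕ :=
  Nat.card {I : Finset (Fin m) // M.Indep (I : Set (Fin m)) ∧ I.card = i}

/-- the polynomial `∑ F_i x^i (1 - x)^(r - i)` with `r` the rank -/
noncomputable def HPoly {m : ℕ} (M : Matroid (Fin m)) : ℤ[X] :=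
  ∑ i ∈ Finset.range (rk M + 1), (Fv M i : ℤ[X]) * X ^ i * (1 - X) ^ (rk M - i)

/-- `H_i`: the entries of the `H`-vector -/
noncomputable def Hv {m : ℕ} (M : Matroid (Fin m)) (i : ℕ) : ℤ := (HPoly M).coeff i

/-- the `H`-vector `(H_0, ..., H_r)` is nondecreasing -/
def HNondecreasing {m : ℕ} (M : Matroid (Fin m)) : Prop :=
  ∀ i < rk M, Hv M i ≤ Hv M (i + 1)

/-- the reliability polynomial at `q` -/
noncomputable def RelAt {m : ℕ} (M : Matroid (Fin m)) (q : ℂ) : ℂ :=
  ∑ i ∈ Finset.range (rk M + 1), (Fv M i : ℂ) * q ^ i * (1 - q) ^ (m - i)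

end Pool.Agent.Helper6H
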