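import Pool.Agent.Helper6H.C5
import Pool.Agent.Helper6H.HVec

set_option autoImplicit false
set_option linter.unusedSectionVars false

namespace Pool.Agent.Helper6H

open Finset Filter Polynomial Pool.Agent.Helper46 Pool.Agent.Helper46.A Pool.Agent.Helper46.A.F

open Classical in
/-- the family of the independent sets -/
noncomputable def indF {m : ℕ} (M : Matroid (Fin m)) : Fam m :=
  univ.filter (fun I => M.Indep (I : Set (Fin m)))

theorem mem_indF {m : ℕ} (M : Matroid (Fin m)) (I : Finset (Fin m)) :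
    I ∈ indF M ↔ M.Indep (I : Set (Fin m)) := by
  unfold indF
  simp

theorem base_card {m : ℕ} {M : Matroid (Fin m)} {B : Finset (Fin m)}
    (hB : M.IsBase (B : Set (Fin m))) : B.card = rk M := by
  unfold rk
  rw [← hB.encard_eq_eRank, Set.encard_coe_eq_coe_finsetCard]
  rfl

theorem indep_card_le {m : ℕ} {M : Matroid (Fin m)} {I : Finset (Fin m)}
    (hI : M.Indep (I : Set (Fin m))) : I.card ≤ rk M := by
  obtain ⟨B, hB, hIB⟩ := hI.exists_isBase_superset
  lift B to Finset (Fin m) using B.toFinite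
  rw [← base_card hB]
  exact card_le_card (by exact_mod_cast hIB)

theorem indep_base_iff {m : ℕ} {M : Matroid (Fin m)} {I : Finset (Fin m)} :
    (M.Indep (I : Set (Fin m)) ∧ I.card = rk M) ↔ M.IsBase (I : Set (Fin m)) := by
  constructor
  · rintro ⟨hI, hc⟩
    obtain ⟨B, hB, hIB⟩ := hI.exists_isBase_superset
    lift B to Finset (Fin m) using B.toFinite
    have h1 : I ⊆ B := by exact_mod_cast hIB
    have h2 : I = B := eq_of_subset_of_card_le h1 (by rw [base_card hB, hc])
    rw [h2]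
    exact hB
  · intro h
    exact ⟨h.indep, base_card h⟩

theorem indF_IM {m : ℕ} (M : Matroid (Fin m)) : IM (indF M) (rk M) := by
  refine ⟨?_, ?_, ?_, ?_⟩
  · intro I hI J hJ
    rw [mem_indF] at hI ⊢
    exact hI.subset (by exact_mod_cast hJ)
  · intro I hI
    exact indep_card_le ((mem_indF M I).1 hI)
  · obtain ⟨B, hB⟩ := M.exists_isBase
    lift B to Finset (Fin m) using B.toFinite
    exact ⟨B, (mem_indF M B).2 hB.indep, base_card hB⟩
  · intro I hI J hJ hc
    rw [mem_indF] at hI hJ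
    have : (I : Set (Fin m)).encard < (J : Set (Fin m)).encard := by
      rw [Set.encard_coe_eq_coe_finsetCard, Set.encard_coe_eq_coe_finsetCard]
      exact_mod_cast hc
    obtain ⟨e, he, hin⟩ := hI.augment hJ this
    refine ⟨e, by exact_mod_cast he.1, by exact_mod_cast he.2, ?_⟩
    rw [mem_indF]
    simpa using hin

theorem bs_indF {m : ℕ} (M : Matroid (Fin m)) : bs (indF M) (rk M) = (bs_22726 M).card := by
  unfold bs
  congr 1
  ext I
  rw [mem_filter, mem_indF, mem_bs_22726, indep_base_iff]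

theorem Fv_eq {m : ℕ} (M : Matroid (Fin m)) (i : ℕ) :
    Fv M i = ((indF M).filter (fun I => I.card = i)).card := by
  classical
  unfold Fv
  rw [Nat.card_eq_fintype_card, Fintype.card_subtype]
  congr 1
  ext I
  rw [mem_filter, mem_filter, mem_indF]
  simp

theorem HPoly_eq {m : ℕ} (M : Matroid (Fin m)) : HPoly M = hp (indF M) (rk M) := by
  classical
  unfold HPoly hp
  rw [← sum_fiberwise_of_maps_to (s := indF M) (t := range (rk M + 1)) (g := fun I => I.card)
    (fun I hI => mem_range.2 (Nat.lt_succ_of_le ((indF_IM M).le I hI)))]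
  apply sum_congr rfl
  intro i _
  rw [Fv_eq]
  have : ∀ I ∈ (indF M).filter (fun I => I.card = i),
      (X : ℤ[X]) ^ I.card * (1 - X) ^ (rk M - I.card) = X ^ i * (1 - X) ^ (rk M - i) := by
    intro I hI
    rw [(mem_filter.1 hI).2]
  rw [sum_congr rfl this, sum_const, nsmul_eq_mul, mul_assoc]

theorem good_nondec {m : ℕ} (hm : 16 ≤ m) (M : Matroid (Fin m))
    (hg : Good M) : HNondecreasing M := by
  obtain ⟨r, hr, hB⟩ := bs_isBF_22726 M
  have hrk : r = rk M := by
    obtain ⟨X, hX⟩ := hB.ne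
    rw [← hB.card X hX]
    exact base_card ((mem_bs_22726 M X).1 hX)
  subst hrk
  obtain ⟨h1, h2⟩ := hg _ hB
  intro i hi
  unfold Hv
  rw [HPoly_eq]
  refine nondec (m := m) (E := univ) (by rw [card_univ, Fintype.card_fin])
    (fun I _ => subset_univ I) (indF_IM M) hm h1 ?_ i hi
  rw [bs_indF]
  exact h2

theorem Hv_zero {m : ℕ} (M : Matroid (Fin m)) : Hv M 0 = 1 := by
  unfold Hv
  rw [HPoly_eq]
  exact hp_zero _ _ (indF_IM M).empty_mem

theorem Hv_big {m : ℕ} (M : Matroid (Fin m)) (i : ℕ) (hi : rk M < i) : Hv M i = 0 := by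
  unfold Hv
  rw [HPoly_eq]
  exact hp_deg _ _ (indF_IM M).le i hi

/-- Eneström–Kakeya -/
theorem enestrom (a : ℕ → ℝ) (q : ℂ) (hq : 1 ≤ ‖q‖) (r : ℕ) (h0 : 0 ≤ a 0)
    (ha : ∀ i < r, a i ≤ a (i + 1)) : ∀ k ≤ r,
    0 ≤ a k ∧ ‖(a k : ℂ) * q ^ (k + 1) - (q - 1) * ∑ i ∈ range (k + 1), (a i : ℂ) * q ^ i‖ ≤
      a k * ‖q‖ ^ k := by
  intro k
  induction k with
  | zero =>
    intro _
    refine ⟨h0, ?_⟩
    have : (a 0 : ℂ) * q ^ (0 + 1) - (q - 1) * ∑ i ∈ range (0 + 1), (a i : ℂ) * q ^ i = (a 0 : ℂ) := by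
      rw [sum_range_one]
      ring
    rw [this, Complex.norm_real, Real.norm_of_nonneg h0]
    simp
  | succ k ih =>
    intro hk
    obtain ⟨i1, i2⟩ := ih (by omega)
    have hak := ha k (by omega)
    refine ⟨i1.trans hak, ?_⟩
    have e : (a (k + 1) : ℂ) * q ^ (k + 1 + 1) - (q - 1) * ∑ i ∈ range (k + 1 + 1), (a i : ℂ) * q ^ i =
        ((a k : ℂ) * q ^ (k + 1) - (q - 1) * ∑ i ∈ range (k + 1), (a i : ℂ) * q ^ i) +
          ((a (k + 1) - a k : ℝ) : ℂ) * q ^ (k + 1) := by
      rw [sum_range_succ _ (k + 1)]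
      push_cast
      ring
    rw [e]
    refine (norm_add_le _ _).trans ?_
    rw [norm_mul, norm_pow, Complex.norm_real, Real.norm_of_nonneg (by linarith)]
    have h1 : ‖q‖ ^ k ≤ ‖q‖ ^ (k + 1) := pow_le_pow_right₀ hq (by omega)
    have h2 : a k * ‖q‖ ^ k ≤ a k * ‖q‖ ^ (k + 1) := mul_le_mul_of_nonneg_left h1 i1
    linarith

theorem RelAt_eq {m : ℕ} (M : Matroid (Fin m)) (q : ℂ) :
    RelAt M q = (1 - q) ^ (m - rk M) * ∑ i ∈ range (rk M + 1), ((Hv M i : ℝ) : ℂ) * q ^ i := by
  have hrm : rk M ≤ m := by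
    have := (indF_IM M).rank_le (E := univ) (fun I _ => subset_univ I)
    rwa [card_univ, Fintype.card_fin] at this
  have h1 : aeval q (HPoly M) = ∑ i ∈ range (rk M + 1), ((Hv M i : ℝ) : ℂ) * q ^ i := by
    have hdeg : (HPoly M).natDegree < rk M + 1 := by
      rw [Nat.lt_succ_iff, natDegree_le_iff_coeff_eq_zero]
      intro N hN
      exact Hv_big M N hN
    rw [aeval_eq_sum_range' hdeg]
    apply sum_congr rfl
    intro i _
    unfold Hv
    rw [zsmul_eq_mul]
    push_cast
    rfl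
  rw [← h1]
  unfold RelAt HPoly
  rw [map_sum, mul_sum]
  apply sum_congr rfl
  intro i hi
  have hi' : i ≤ rk M := Nat.lt_succ_iff.1 (mem_range.1 hi)
  have e : m - i = (m - rk M) + (rk M - i) := by omega
  rw [e, pow_add]
  simp only [map_mul, map_pow, map_sub, map_one, aeval_X, map_natCast]
  ring

theorem nondec_roots {m : ℕ} (M : Matroid (Fin m)) (h : HNondecreasing M) (q : ℂ)
    (hq : RelAt M q = 0) : ‖q‖ ≤ 1 := by
  by_contra hcon
  push Not at hcon
  rw [RelAt_eq] at hq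
  have hq1 : (1 - q) ≠ 0 := by
    intro h0
    have : q = 1 := by linear_combination -h0
    rw [this] at hcon
    simp at hcon
  have hS : ∑ i ∈ range (rk M + 1), ((Hv M i : ℝ) : ℂ) * q ^ i = 0 := by
    rcases mul_eq_zero.1 hq with h1 | h1
    · exact absurd h1 (pow_ne_zero _ hq1)
    · exact h1
  have key := enestrom (fun i => (Hv M i : ℝ)) q hcon.le (rk M)
    (by rw [Hv_zero]; norm_num) (fun i hi => by exact_mod_cast h i hi) (rk M) le_rfl
  have hpos : ∀ k ≤ rk M, (1 : ℝ) ≤ (Hv M k : ℝ) := by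
    intro k
    induction k with
    | zero => intro _; rw [Hv_zero]; norm_num
    | succ k ih =>
      intro hk
      refine (ih (by omega)).trans ?_
      exact_mod_cast h k (by omega)
  have hr := hpos (rk M) le_rfl
  obtain ⟨_, k2⟩ := key
  rw [hS, mul_zero, sub_zero, norm_mul, norm_pow, Complex.norm_real,
    Real.norm_of_nonneg (by linarith)] at k2
  have k3 : ‖q‖ ^ (rk M + 1) ≤ ‖q‖ ^ (rk M) := le_of_mul_le_mul_left k2 (by linarith)
  rw [pow_succ] at k3
  have k4 : (0 : ℝ) < ‖q‖ ^ (rk M) := by positivity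
  have : ‖q‖ ≤ 1 := by
    by_contra h5
    push Not at h5
    nlinarith
  linarith

end Pool.Agent.Helper6H
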