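import Mathlib

set_option autoImplicit false
set_option linter.unusedSectionVars false

namespace Pool.Agent.Helper6H

open Finset Polynomial

variable {α : Type*} [DecidableEq α]

/-- independence systems with augmentation, of rank `r` -/
structure IM (F : Finset (Finset α)) (r : ℕ) : Prop where
  sub : ∀ I ∈ F, ∀ J ⊆ I, J ∈ F
  le : ∀ I ∈ F, I.card ≤ r
  ex : ∃ I ∈ F, I.card = r
  aug : ∀ I ∈ F, ∀ J ∈ F, I.card < J.card → ∃ x ∈ J, x ∉ I ∧ insert x I ∈ F

/-- deletion -/
def del (F : Finset (Finset α)) (e : α) : Finset (Finset α) := F.filter (fun I => e ∉ I)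

/-- contraction -/
def con (F : Finset (Finset α)) (e : α) : Finset (Finset α) :=
  (F.filter (fun I => e ∈ I)).image (fun I => I.erase e)

theorem mem_del {F : Finset (Finset α)} {e : α} {I : Finset α} : I ∈ del F e ↔ I ∈ F ∧ e ∉ I := by
  unfold del; rw [mem_filter]

theorem mem_con {F : Finset (Finset α)} {e : α} {I : Finset α} :
    I ∈ con F e ↔ e ∉ I ∧ insert e I ∈ F := by
  unfold con
  rw [mem_image]
  constructor
  · rintro ⟨J, hJ, rfl⟩
    rw [mem_filter] at hJ
    exact ⟨notMem_erase _ _, by rw [insert_erase hJ.2]; exact hJ.1⟩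
  · rintro ⟨h1, h2⟩
    exact ⟨insert e I, mem_filter.2 ⟨h2, mem_insert_self _ _⟩, erase_insert h1⟩

/-- the polynomial `∑ x^|I| (1-x)^(r-|I|)` -/
noncomputable def hp (F : Finset (Finset α)) (r : ℕ) : ℤ[X] :=
  ∑ I ∈ F, X ^ I.card * (1 - X) ^ (r - I.card)

/-- number of members of size `r` -/
def bs (F : Finset (Finset α)) (r : ℕ) : ℕ := (F.filter (fun I => I.card = r)).card

theorem IM.ext {F : Finset (Finset α)} {r : ℕ} (h : IM F r) {I : Finset α} (hI : I ∈ F) :
    ∃ J ∈ F, I ⊆ J ∧ J.card = r := by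
  obtain ⟨d, hd⟩ : ∃ d, d = r - I.card := ⟨_, rfl⟩
  induction d generalizing I with
  | zero =>
    have := h.le I hI
    exact ⟨I, hI, Subset.refl _, by omega⟩
  | succ d ih =>
    obtain ⟨K, hK, hKr⟩ := h.ex
    obtain ⟨x, hx, hxI, hin⟩ := h.aug I hI K hK (by omega)
    obtain ⟨J, hJ, hsub, hJr⟩ := ih hin (by rw [card_insert_of_notMem hxI]; omega)
    exact ⟨J, hJ, (subset_insert _ _).trans hsub, hJr⟩

theorem IM.del_IM {F : Finset (Finset α)} {r : ℕ} (h : IM F r) {e : α}
    (he : ∃ I ∈ F, I.card = r ∧ e ∉ I) : IM (del F e) r := by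
  refine ⟨?_, ?_, ?_, ?_⟩
  · intro I hI J hJ
    rw [mem_del] at hI ⊢
    exact ⟨h.sub I hI.1 J hJ, fun h' => hI.2 (hJ h')⟩
  · intro I hI
    exact h.le I (mem_del.1 hI).1
  · obtain ⟨I, hI, hr, heI⟩ := he
    exact ⟨I, mem_del.2 ⟨hI, heI⟩, hr⟩
  · intro I hI J hJ hc
    rw [mem_del] at hI hJ
    obtain ⟨x, hx, hxI, hin⟩ := h.aug I hI.1 J hJ.1 hc
    refine ⟨x, hx, hxI, mem_del.2 ⟨hin, ?_⟩⟩
    rw [mem_insert, not_or]
    exact ⟨fun h' => hJ.2 (h' ▸ hx), hI.2⟩

theorem IM.con_IM {F : Finset (Finset α)} {r : ℕ} (h : IM F r) {e : α}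
    (he : {e} ∈ F) : 1 ≤ r ∧ IM (con F e) (r - 1) := by
  have hr : 1 ≤ r := by
    have := h.le _ he
    rwa [card_singleton] at this
  refine ⟨hr, ?_, ?_, ?_, ?_⟩
  · intro I hI J hJ
    rw [mem_con] at hI ⊢
    exact ⟨fun h' => hI.1 (hJ h'), h.sub _ hI.2 _ (insert_subset_insert _ hJ)⟩
  · intro I hI
    rw [mem_con] at hI
    have := h.le _ hI.2
    rw [card_insert_of_notMem hI.1] at this
    omega
  · obtain ⟨J, hJ, hsub, hJr⟩ := h.ext he
    rw [singleton_subset_iff] at hsub
    refine ⟨J.erase e, mem_con.2 ⟨notMem_erase _ _, by rw [insert_erase hsub]; exact hJ⟩, ?_⟩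
    rw [card_erase_of_mem hsub, hJr]
  · intro I hI J hJ hc
    rw [mem_con] at hI hJ
    obtain ⟨x, hx, hxI, hin⟩ := h.aug _ hI.2 _ hJ.2 (by
      rw [card_insert_of_notMem hI.1, card_insert_of_notMem hJ.1]; omega)
    rw [mem_insert, not_or] at hxI
    rcases mem_insert.1 hx with h1 | h1
    · exact absurd h1 hxI.1
    refine ⟨x, h1, hxI.2, mem_con.2 ⟨?_, ?_⟩⟩
    · rw [mem_insert, not_or]
      exact ⟨fun h' => hxI.1 h'.symm, hI.1⟩
    · rw [insert_comm]; exact hin

theorem hp_split (F : Finset (Finset α)) (r : ℕ) (e : α) :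
    hp F r = hp (del F e) r + X * hp (con F e) (r - 1) := by
  unfold hp
  rw [← sum_filter_add_sum_filter_not F (fun I => e ∉ I)]
  congr 1
  unfold con
  rw [sum_image, mul_sum]
  · have hf : F.filter (fun I => ¬ (e ∉ I)) = F.filter (fun I => e ∈ I) := by
      apply filter_congr; intro I _; simp
    rw [hf]
    apply sum_congr rfl
    intro I hI
    rw [mem_filter] at hI
    have hc := card_erase_add_one hI.2
    obtain ⟨j, hj⟩ : ∃ j, j = (I.erase e).card := ⟨_, rfl⟩
    rw [← hj] at hc ⊢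
    rw [← hc]
    have : r - 1 - j = r - (j + 1) := by omega
    rw [this]
    ring
  · intro I hI J hJ hIJ
    have h1 := (mem_filter.1 (mem_coe.1 hI)).2
    have h2 := (mem_filter.1 (mem_coe.1 hJ)).2
    have : (I.erase e) = (J.erase e) := hIJ
    rw [← insert_erase h1, ← insert_erase h2, this]

theorem hp_raise (F : Finset (Finset α)) (r : ℕ) (hF : ∀ I ∈ F, I.card ≤ r) :
    hp F (r + 1) = (1 - X) * hp F r := by
  unfold hp
  rw [mul_sum]
  apply sum_congr rfl
  intro I hI
  have : r + 1 - I.card = (r - I.card) + 1 := by have := hF I hI; omega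
  rw [this, pow_succ]
  ring

theorem hp_deg (F : Finset (Finset α)) (r : ℕ) (hF : ∀ I ∈ F, I.card ≤ r) (i : ℕ) (hi : r < i) :
    (hp F r).coeff i = 0 := by
  unfold hp
  rw [finsetSum_coeff]
  apply sum_eq_zero
  intro I hI
  apply coeff_eq_zero_of_natDegree_lt
  refine lt_of_le_of_lt natDegree_mul_le ?_
  have h1 : (X ^ I.card : ℤ[X]).natDegree ≤ I.card := natDegree_X_pow_le _
  have h2 : ((1 - X : ℤ[X]) ^ (r - I.card)).natDegree ≤ r - I.card := by
    refine natDegree_pow_le.trans ?_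
    have : (1 - X : ℤ[X]).natDegree ≤ 1 := by
      refine (natDegree_sub_le _ _).trans ?_
      simp
    calc (r - I.card) * (1 - X : ℤ[X]).natDegree ≤ (r - I.card) * 1 := Nat.mul_le_mul_left _ this
      _ = _ := mul_one _
  have h3 := hF I hI
  omega

theorem hp_zero (F : Finset (Finset α)) (r : ℕ) (h : ∅ ∈ F) : (hp F r).coeff 0 = 1 := by
  unfold hp
  rw [finsetSum_coeff, sum_eq_single ∅]
  · simp [coeff_zero_eq_eval_zero]
  · intro I _ hI
    have : I.card ≠ 0 := fun h' => hI (card_eq_zero.1 h')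
    rw [mul_coeff_zero, coeff_X_pow]
    rw [if_neg (fun h' => this h'.symm), zero_mul]
  · intro h'; exact absurd h h'

theorem bs_split (F : Finset (Finset α)) (r : ℕ) (hr : 1 ≤ r) (e : α) :
    bs F r = bs (del F e) r + bs (con F e) (r - 1) := by
  unfold bs
  rw [← card_filter_add_card_filter_not (s := F.filter (fun I => I.card = r)) (fun I => e ∉ I)]
  congr 1
  · congr 1
    ext I
    simp only [mem_filter, mem_del]
    tauto
  · symm
    refine card_bij' (fun J _ => insert e J) (fun I _ => I.erase e) ?_ ?_ ?_ ?_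
    · intro J hJ
      rw [mem_filter, mem_con] at hJ
      rw [mem_filter, mem_filter]
      refine ⟨⟨hJ.1.2, ?_⟩, by simp⟩
      rw [card_insert_of_notMem hJ.1.1]; omega
    · intro I hI
      rw [mem_filter, mem_filter, not_not] at hI
      rw [mem_filter, mem_con]
      refine ⟨⟨notMem_erase _ _, by rw [insert_erase hI.2]; exact hI.1.1⟩, ?_⟩
      rw [card_erase_of_mem hI.2, hI.1.2]
    · intro J hJ
      rw [mem_filter, mem_con] at hJ
      exact erase_insert hJ.1.1
    · intro I hI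
      rw [mem_filter, not_not] at hI
      exact insert_erase hI.2

/-- if every basis contains `e` then deletion and contraction agree -/
theorem IM.coloop {F : Finset (Finset α)} {r : ℕ} (h : IM F r) {e : α}
    (he : ∀ I ∈ F, I.card = r → e ∈ I) : del F e = con F e := by
  ext I
  rw [mem_del, mem_con]
  constructor
  · rintro ⟨h1, h2⟩
    obtain ⟨J, hJ, hsub, hJr⟩ := h.ext h1
    exact ⟨h2, h.sub J hJ _ (insert_subset (he J hJ hJr) hsub)⟩
  · rintro ⟨h1, h2⟩
    exact ⟨h.sub _ h2 _ (subset_insert _ _), h1⟩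

theorem sum_del (F : Finset (Finset α)) (r : ℕ) (E : Finset α) (hE : ∀ I ∈ F, I ⊆ E) :
    ∑ e ∈ E, bs (del F e) r = (E.card - r) * bs F r := by
  have h1 : ∀ e, bs (del F e) r = ∑ I ∈ F.filter (fun I => I.card = r), if e ∉ I then 1 else 0 := by
    intro e
    rw [← card_filter]
    unfold bs
    congr 1
    ext I
    simp only [mem_filter, mem_del]
    tauto
  simp_rw [h1]
  rw [sum_comm]
  have h2 : ∀ I ∈ F.filter (fun I => I.card = r),
      ∑ e ∈ E, (if e ∉ I then 1 else 0) = E.card - r := by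
    intro I hI
    rw [mem_filter] at hI
    rw [← card_filter]
    have : E.filter (fun e => e ∉ I) = E \ I := by ext x; simp
    rw [this, card_sdiff_of_subset (hE I hI.1), hI.2]
  rw [sum_congr rfl h2, sum_const, smul_eq_mul, mul_comm]
  rfl

theorem sum_con (F : Finset (Finset α)) (r : ℕ) (hr : 1 ≤ r) (E : Finset α)
    (hE : ∀ I ∈ F, I ⊆ E) :
    ∑ e ∈ E, bs (con F e) (r - 1) = r * bs F r := by
  have h1 : ∀ e, bs (con F e) (r - 1) =
      ∑ I ∈ F.filter (fun I => I.card = r), if e ∈ I then 1 else 0 := by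
    intro e
    rw [← card_filter]
    unfold bs
    refine card_bij' (fun J _ => insert e J) (fun I _ => I.erase e) ?_ ?_ ?_ ?_
    · intro J hJ
      rw [mem_filter, mem_con] at hJ
      rw [mem_filter, mem_filter]
      refine ⟨⟨hJ.1.2, ?_⟩, by simp⟩
      rw [card_insert_of_notMem hJ.1.1]; omega
    · intro I hI
      rw [mem_filter, mem_filter] at hI
      rw [mem_filter, mem_con]
      refine ⟨⟨notMem_erase _ _, by rw [insert_erase hI.2]; exact hI.1.1⟩, ?_⟩
      rw [card_erase_of_mem hI.2, hI.1.2]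
    · intro J hJ
      rw [mem_filter, mem_con] at hJ
      exact erase_insert hJ.1.1
    · intro I hI
      rw [mem_filter] at hI
      exact insert_erase hI.2
  simp_rw [h1]
  rw [sum_comm]
  have h2 : ∀ I ∈ F.filter (fun I => I.card = r),
      ∑ e ∈ E, (if e ∈ I then 1 else 0) = r := by
    intro I hI
    rw [mem_filter] at hI
    rw [← card_filter]
    have : E.filter (fun e => e ∈ I) = I := by
      ext x; simp only [mem_filter]
      exact ⟨fun h => h.2, fun h => ⟨hE I hI.1 h, h⟩⟩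
    rw [this, hI.2]
  rw [sum_congr rfl h2, sum_const, smul_eq_mul, mul_comm]
  rfl

end Pool.Agent.Helper6H
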