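import Pool.Agent.Helper6H.Det

set_option autoImplicit false
set_option linter.unusedSectionVars false

namespace Pool.Agent.Helper6H

open Finset Polynomial

variable {α : Type*} [DecidableEq α]

theorem mc_mono {p q : ℕ} (h : p ≤ q) (i : ℕ) : Nat.multichoose p i ≤ Nat.multichoose q i := by
  rw [Nat.multichoose_eq, Nat.multichoose_eq]
  exact Nat.choose_le_choose i (by omega)

theorem coeff_X_mul' (Q : ℤ[X]) (i : ℕ) : (X * Q).coeff (i + 1) = Q.coeff i := by
  rw [coeff_X_mul]

theorem con_empty {F : Finset (Finset α)} {r : ℕ} (h : IM F r) {e : α} (he : {e} ∉ F) :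
    con F e = ∅ := by
  rw [eq_empty_iff_forall_notMem]
  intro I hI
  rw [mem_con] at hI
  exact he (h.sub _ hI.2 _ (singleton_subset_iff.2 (mem_insert_self _ _)))

theorem del_eq {F : Finset (Finset α)} {r : ℕ} (h : IM F r) {e : α} (he : {e} ∉ F) :
    del F e = F := by
  unfold del
  rw [filter_eq_self]
  intro I hI h'
  exact he (h.sub _ hI _ (singleton_subset_iff.2 h'))

theorem hp_coloop {F : Finset (Finset α)} {r : ℕ} (h : IM F r) {e : α} (he1 : {e} ∈ F)
    (he : ∀ I ∈ F, I.card = r → e ∈ I) : hp F r = hp (con F e) (r - 1) := by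
  obtain ⟨hr, hc⟩ := h.con_IM he1
  rw [hp_split F r e, h.coloop he]
  obtain ⟨s, rfl⟩ : ∃ s, r = s + 1 := ⟨r - 1, by omega⟩
  simp only [Nat.add_sub_cancel] at hc ⊢
  rw [hp_raise _ s hc.le]
  ring

theorem sub_erase_of_del {F : Finset (Finset α)} {E : Finset α} {e : α} (hE : ∀ I ∈ F, I ⊆ E) :
    ∀ I ∈ del F e, I ⊆ E.erase e := by
  intro I hI
  rw [mem_del] at hI
  intro x hx
  rw [mem_erase]
  exact ⟨fun h => hI.2 (h ▸ hx), hE I hI.1 hx⟩

theorem sub_erase_of_con {F : Finset (Finset α)} {E : Finset α} {e : α} (hE : ∀ I ∈ F, I ⊆ E) :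
    ∀ I ∈ con F e, I ⊆ E.erase e := by
  intro I hI
  rw [mem_con] at hI
  intro x hx
  rw [mem_erase]
  exact ⟨fun h => hI.1 (h ▸ hx), hE _ hI.2 (mem_insert_of_mem hx)⟩

theorem IM.rank_le {F : Finset (Finset α)} {r : ℕ} (h : IM F r) {E : Finset α}
    (hE : ∀ I ∈ F, I ⊆ E) : r ≤ E.card := by
  obtain ⟨I, hI, hr⟩ := h.ex
  rw [← hr]
  exact card_le_card (hE I hI)

theorem IM.empty_mem {F : Finset (Finset α)} {r : ℕ} (h : IM F r) : ∅ ∈ F := by
  obtain ⟨I, hI, _⟩ := h.ex
  exact h.sub I hI _ (empty_subset _)

theorem coeff_bounds (m : ℕ) : ∀ (E : Finset α) (F : Finset (Finset α)) (r : ℕ), E.card = m →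
    (∀ I ∈ F, I ⊆ E) → IM F r → ∀ i, 0 ≤ (hp F r).coeff i ∧
      (hp F r).coeff i ≤ (Nat.multichoose (m - r) i : ℤ) := by
  induction m with
  | zero =>
    intro E F r hm hE hF i
    have hr : r = 0 := by have := hF.rank_le hE; omega
    subst hr
    rcases Nat.eq_zero_or_pos i with rfl | hi
    · rw [hp_zero F 0 hF.empty_mem]
      simp
    · rw [hp_deg F 0 hF.le i hi]
      exact ⟨le_refl _, by positivity⟩
  | succ m ih =>
    intro E F r hm hE hF i
    rcases Nat.eq_zero_or_pos i with rfl | hi
    · rw [hp_zero F r hF.empty_mem]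
      simp
    obtain ⟨i, rfl⟩ : ∃ j, i = j + 1 := ⟨i - 1, by omega⟩
    obtain ⟨e, he⟩ : E.Nonempty := by rw [← card_pos]; omega
    have hEe : (E.erase e).card = m := by rw [card_erase_of_mem he]; omega
    by_cases h1 : {e} ∈ F
    · by_cases h2 : ∀ I ∈ F, I.card = r → e ∈ I
      · rw [hp_coloop hF h1 h2]
        obtain ⟨hr, hc⟩ := hF.con_IM h1
        have := ih (E.erase e) (con F e) (r - 1) hEe (sub_erase_of_con hE) hc (i + 1)
        rwa [show m - (r - 1) = m + 1 - r by omega] at this
      · push Not at h2
        obtain ⟨I, hI, hIr, heI⟩ := h2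
        have hd : IM (del F e) r := hF.del_IM ⟨I, hI, hIr, heI⟩
        have hrm := hd.rank_le (sub_erase_of_del hE)
        rw [hEe] at hrm
        obtain ⟨hr, hc⟩ := hF.con_IM h1
        have k1 := ih (E.erase e) (del F e) r hEe (sub_erase_of_del hE) hd (i + 1)
        have k2 := ih (E.erase e) (con F e) (r - 1) hEe (sub_erase_of_con hE) hc i
        rw [hp_split F r e, coeff_add, coeff_X_mul']
        obtain ⟨p, hp⟩ : ∃ p, p = m - r := ⟨_, rfl⟩
        rw [← hp] at k1
        rw [show m - (r - 1) = p + 1 by omega] at k2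
        rw [show m + 1 - r = p + 1 by omega, Nat.multichoose_succ_succ]
        push_cast
        constructor
        · linarith [k1.1, k2.1]
        · linarith [k1.2, k2.2]
    · have hd : IM (del F e) r := by rw [del_eq hF h1]; exact hF
      have hrm := hd.rank_le (sub_erase_of_del hE)
      rw [hEe] at hrm
      have k1 := ih (E.erase e) (del F e) r hEe (sub_erase_of_del hE) hd (i + 1)
      rw [del_eq hF h1] at k1
      refine ⟨k1.1, k1.2.trans ?_⟩
      exact_mod_cast mc_mono (by omega : m - r ≤ m + 1 - r) (i + 1)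

/-- first differences of the uniform `h`-vector -/
def gam (p i : ℕ) : ℤ := if i = 0 then 1 else (Nat.multichoose p i : ℤ) - Nat.multichoose p (i - 1)

theorem gam_zero (p : ℕ) : gam p 0 = 1 := by simp [gam]

theorem gam_succ (p i : ℕ) : gam p (i + 1) = (Nat.multichoose p (i + 1) : ℤ) - Nat.multichoose p i := by
  simp [gam]

theorem gam_pascal (p i : ℕ) : gam (p + 1) (i + 1) = gam p (i + 1) + gam (p + 1) i := by
  rw [gam_succ, gam_succ]
  cases i with
  | zero => rw [gam_zero, Nat.multichoose_succ_succ]; simp
  | succ j =>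
    rw [gam_succ, Nat.multichoose_succ_succ, Nat.multichoose_succ_succ]
    push_cast
    ring

theorem gam_le (p i : ℕ) : gam p i ≤ ((p + i).choose i : ℤ) := by
  cases i with
  | zero => simp [gam_zero]
  | succ j =>
    rw [gam_succ]
    have h1 : Nat.multichoose p (j + 1) ≤ (p + (j + 1)).choose (j + 1) := by
      rw [Nat.multichoose_eq]
      exact Nat.choose_le_choose _ (by omega)
    have h2 : (Nat.multichoose p (j + 1) : ℤ) ≤ ((p + (j + 1)).choose (j + 1) : ℤ) := by
      exact_mod_cast h1
    have h3 : (0 : ℤ) ≤ Nat.multichoose p j := by positivity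
    linarith

/-- first differences of the `h`-vector -/
noncomputable def gg (F : Finset (Finset α)) (r i : ℕ) : ℤ := ((1 - X) * hp F r).coeff i

theorem gg_zero {F : Finset (Finset α)} {r : ℕ} (h : ∅ ∈ F) : gg F r 0 = 1 := by
  unfold gg
  rw [mul_coeff_zero, hp_zero F r h]
  simp

theorem gg_succ (F : Finset (Finset α)) (r i : ℕ) :
    gg F r (i + 1) = (hp F r).coeff (i + 1) - (hp F r).coeff i := by
  unfold gg
  rw [sub_mul, one_mul, coeff_sub, coeff_X_mul']

theorem gg_split (F : Finset (Finset α)) (r : ℕ) (e : α) (i : ℕ) :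
    gg F r (i + 1) = gg (del F e) r (i + 1) + gg (con F e) (r - 1) i := by
  unfold gg
  rw [hp_split F r e]
  rw [show (1 - X : ℤ[X]) * (hp (del F e) r + X * hp (con F e) (r - 1)) =
    (1 - X) * hp (del F e) r + X * ((1 - X) * hp (con F e) (r - 1)) by ring]
  rw [coeff_add, coeff_X_mul']

theorem bs_le {F : Finset (Finset α)} {E : Finset α} (hE : ∀ I ∈ F, I ⊆ E) (r : ℕ) :
    bs F r ≤ E.card.choose r := by
  unfold bs
  rw [← card_powersetCard]
  apply card_le_card
  intro I hI
  rw [mem_filter] at hI
  rw [mem_powersetCard]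
  exact ⟨hE I hI.1, hI.2⟩

theorem main_bound (m : ℕ) : ∀ (E : Finset α) (F : Finset (Finset α)) (r : ℕ), E.card = m →
    (∀ I ∈ F, I ⊆ E) → IM F r → ∀ i ≤ r,
      (gam (m - r) i : ℝ) - ((m - r + i).choose i : ℝ) * (1 - (bs F r : ℝ) / (m.choose r : ℝ)) ≤
        (gg F r i : ℝ) := by
  induction m with
  | zero =>
    intro E F r hm hE hF i hi
    have hr : r = 0 := by have := hF.rank_le hE; omega
    subst hr
    obtain rfl : i = 0 := by omega
    rw [gg_zero hF.empty_mem, gam_zero]
    have hb : bs F 0 ≤ 1 := by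
      have := bs_le hE 0
      simpa using this
    simp
    exact hb
  | succ m ih =>
    intro E F r hm hE hF i hi
    have hrm := hF.rank_le hE
    rw [hm] at hrm
    have hN : 0 < (m + 1).choose r := Nat.choose_pos hrm
    have hNR : (0 : ℝ) < ((m + 1).choose r : ℝ) := by exact_mod_cast hN
    have hbN : (bs F r : ℝ) / ((m + 1).choose r : ℝ) ≤ 1 := by
      rw [div_le_one hNR]
      have := bs_le hE r
      rw [hm] at this
      exact_mod_cast this
    rcases Nat.eq_zero_or_pos i with rfl | hi0
    · rw [gg_zero hF.empty_mem, gam_zero]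
      simp
      exact hbN
    obtain ⟨i, rfl⟩ : ∃ j, i = j + 1 := ⟨i - 1, by omega⟩
    obtain ⟨s, rfl⟩ : ∃ s, r = s + 1 := ⟨r - 1, by omega⟩
    rcases Nat.lt_or_ge m (s + 1) with hp0 | hp0
    · -- p = 0
      have hmr : m = s := by omega
      subst hmr
      have k1 := coeff_bounds (m + 1) E F (m + 1) hm hE hF (i + 1)
      have k2 := coeff_bounds (m + 1) E F (m + 1) hm hE hF i
      rw [Nat.sub_self] at k1 k2 ⊢
      rw [gg_succ, gam_succ]
      have e1 : (hp F (m + 1)).coeff (i + 1) = 0 := by
        have := k1.2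
        rw [Nat.multichoose_zero_succ] at this
        have := k1.1
        push_cast at *
        omega
      have e2 : (hp F (m + 1)).coeff i ≤ (Nat.multichoose 0 i : ℤ) := k2.2
      have e2' : ((hp F (m + 1)).coeff i : ℝ) ≤ (Nat.multichoose 0 i : ℝ) := by exact_mod_cast e2
      rw [e1]
      have e3 : (0 : ℝ) ≤ ((0 + (i + 1)).choose (i + 1) : ℝ) *
          (1 - (bs F (m + 1) : ℝ) / ((m + 1).choose (m + 1) : ℝ)) :=
        mul_nonneg (by positivity) (by linarith)
      rw [Nat.multichoose_zero_succ]
      push_cast at e3 ⊢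
      linarith
    · -- p ≥ 1
      obtain ⟨p, hmp⟩ : ∃ p, m = s + 1 + p := ⟨m - (s + 1), by omega⟩
      have hp1 : m + 1 - (s + 1) = p + 1 := by omega
      have hp2 : m - (s + 1) = p := by omega
      have hp3 : m - s = p + 1 := by omega
      rw [hp1]
      have key : ∀ e ∈ E,
          ((gam p (i + 1) : ℝ) - ((p + (i + 1)).choose (i + 1) : ℝ) *
            (1 - (bs (del F e) (s + 1) : ℝ) / (m.choose (s + 1) : ℝ))) +
          ((gam (p + 1) i : ℝ) - ((p + 1 + i).choose i : ℝ) *
            (1 - (bs (con F e) s : ℝ) / (m.choose s : ℝ))) ≤ (gg F (s + 1) (i + 1) : ℝ) := by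
        intro e he
        have hEe : (E.erase e).card = m := by rw [card_erase_of_mem he]; omega
        have hcs : (0 : ℝ) < (m.choose s : ℝ) := by exact_mod_cast Nat.choose_pos (by omega)
        have hbc : (bs (con F e) s : ℝ) / (m.choose s : ℝ) ≤ 1 := by
          rw [div_le_one hcs]
          have := bs_le (sub_erase_of_con (e := e) hE) s
          rw [hEe] at this
          exact_mod_cast this
        by_cases h1 : {e} ∈ F
        · obtain ⟨hr, hc⟩ := hF.con_IM h1
          rw [Nat.add_sub_cancel] at hc
          by_cases h2 : ∀ I ∈ F, I.card = s + 1 → e ∈ I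
          · -- coloop
            have hz : bs (del F e) (s + 1) = 0 := by
              unfold bs
              rw [card_eq_zero, eq_empty_iff_forall_notMem]
              intro I hI
              rw [mem_filter, mem_del] at hI
              exact hI.1.2 (h2 I hI.1.1 hI.2)
            have hg : gg F (s + 1) (i + 1) = gg (con F e) s (i + 1) := by
              unfold gg
              rw [hp_coloop hF h1 h2, Nat.add_sub_cancel]
            rw [hz, hg]
            simp only [Nat.cast_zero, zero_div, sub_zero, mul_one]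
            rcases Nat.lt_or_ge i s with his | his
            · have k := ih (E.erase e) (con F e) s hEe (sub_erase_of_con hE) hc (i + 1) (by omega)
              rw [hp3, gam_pascal] at k
              have hch : (((p + 1) + (i + 1)).choose (i + 1) : ℝ) =
                  ((p + (i + 1)).choose (i + 1) : ℝ) + ((p + 1 + i).choose i : ℝ) := by
                rw [show p + 1 + (i + 1) = (p + 1 + i) + 1 by ring, Nat.choose_succ_succ]
                rw [show p + 1 + i = p + (i + 1) by ring]
                push_cast
                ring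
              rw [hch] at k
              push_cast at k ⊢
              have hA : (0 : ℝ) ≤ ((p + (i + 1)).choose (i + 1) : ℝ) := by positivity
              nlinarith [mul_nonneg hA (by positivity : (0:ℝ) ≤ (bs (con F e) s : ℝ) / (m.choose s : ℝ))]
            · have his' : i = s := by omega
              subst his'
              have k2 := (coeff_bounds m (E.erase e) (con F e) i hEe (sub_erase_of_con hE) hc i).2
              rw [hp3] at k2
              have k2' : ((hp (con F e) i).coeff i : ℝ) ≤ (Nat.multichoose (p + 1) i : ℝ) := by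
                exact_mod_cast k2
              rw [gg_succ, hp_deg _ _ hc.le (i + 1) (by omega)]
              have e1 : (gam p (i + 1) : ℝ) + (gam (p + 1) i : ℝ) =
                  (Nat.multichoose (p + 1) (i + 1) : ℝ) - Nat.multichoose (p + 1) i := by
                have := gam_pascal p i
                rw [gam_succ] at this
                have h' : ((gam p (i + 1) + gam (p + 1) i : ℤ) : ℝ) =
                  (((Nat.multichoose (p + 1) (i + 1) : ℤ) - Nat.multichoose (p + 1) i : ℤ) : ℝ) := by
                  rw [this]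
                push_cast at h'
                exact h'
              have e2 : (Nat.multichoose (p + 1) (i + 1) : ℝ) = ((p + (i + 1)).choose (i + 1) : ℝ) := by
                rw [Nat.multichoose_eq]
                congr 2
                omega
              have e3 : (0 : ℝ) ≤ ((p + 1 + i).choose i : ℝ) *
                  (1 - (bs (con F e) i : ℝ) / (m.choose i : ℝ)) :=
                mul_nonneg (by positivity) (by linarith)
              push_cast at e3 ⊢
              linarith
          · push Not at h2
            obtain ⟨I, hI, hIr, heI⟩ := h2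
            have hd : IM (del F e) (s + 1) := hF.del_IM ⟨I, hI, hIr, heI⟩
            have k1 := ih (E.erase e) (del F e) (s + 1) hEe (sub_erase_of_del hE) hd (i + 1) hi
            have k2 := ih (E.erase e) (con F e) s hEe (sub_erase_of_con hE) hc i (by omega)
            rw [gg_split F (s + 1) e i, Nat.add_sub_cancel]
            rw [hp2] at k1
            rw [hp3] at k2
            push_cast at k1 k2 ⊢
            linarith
        · -- loop
          have hd : IM (del F e) (s + 1) := by rw [del_eq hF h1]; exact hF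
          have k1 := ih (E.erase e) (del F e) (s + 1) hEe (sub_erase_of_del hE) hd (i + 1) hi
          rw [hp2] at k1
          have hg : gg F (s + 1) (i + 1) = gg (del F e) (s + 1) (i + 1) := by rw [del_eq hF h1]
          rw [hg]
          have hz : bs (con F e) s = 0 := by rw [con_empty hF h1]; simp [bs]
          rw [hz]
          have hgl : (gam (p + 1) i : ℝ) ≤ ((p + 1 + i).choose i : ℝ) := by
            exact_mod_cast gam_le (p + 1) i
          simp only [Nat.cast_zero, zero_div, sub_zero, mul_one]
          linarith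
      -- average
      have hsum := sum_le_sum key
      rw [sum_const, hm] at hsum
      have s1 : ∑ e ∈ E, (bs (del F e) (s + 1) : ℝ) = ((p : ℝ) + 1) * bs F (s + 1) := by
        have := sum_del F (s + 1) E hE
        rw [hm, hp1] at this
        exact_mod_cast this
      have s2 : ∑ e ∈ E, (bs (con F e) s : ℝ) = ((s : ℝ) + 1) * bs F (s + 1) := by
        have := sum_con F (s + 1) (by omega) E hE
        rw [Nat.add_sub_cancel] at this
        exact_mod_cast this
      have c1 : ((m : ℝ) + 1) * (m.choose (s + 1) : ℝ) = ((p : ℝ) + 1) * ((m + 1).choose (s + 1) : ℝ) := by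
        have := Nat.choose_mul_succ_eq m (s + 1)
        rw [hp1] at this
        have h' : ((m.choose (s + 1) * (m + 1) : ℕ) : ℝ) = (((m + 1).choose (s + 1) * (p + 1) : ℕ) : ℝ) := by
          rw [this]
        push_cast at h'
        linarith
      have c2 : ((m : ℝ) + 1) * (m.choose s : ℝ) = ((s : ℝ) + 1) * ((m + 1).choose (s + 1) : ℝ) := by
        have := Nat.add_one_mul_choose_eq m s
        have h' : (((m + 1) * m.choose s : ℕ) : ℝ) = (((m + 1).choose (s + 1) * (s + 1) : ℕ) : ℝ) := by
          rw [this]
        push_cast at h'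
        linarith
      have hm1 : (0 : ℝ) < m.choose (s + 1) := by exact_mod_cast Nat.choose_pos hp0
      have hm2 : (0 : ℝ) < m.choose s := by exact_mod_cast Nat.choose_pos (by omega)
      have t1 : ∑ e ∈ E, (bs (del F e) (s + 1) : ℝ) / (m.choose (s + 1) : ℝ) =
          ((m : ℝ) + 1) * ((bs F (s + 1) : ℝ) / ((m + 1).choose (s + 1) : ℝ)) := by
        rw [← sum_div, s1, div_eq_iff hm1.ne', mul_assoc, div_mul_eq_mul_div, mul_div_assoc', eq_div_iff hNR.ne']
        linear_combination (-(bs F (s + 1) : ℝ)) * c1
      have t2 : ∑ e ∈ E, (bs (con F e) s : ℝ) / (m.choose s : ℝ) =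
          ((m : ℝ) + 1) * ((bs F (s + 1) : ℝ) / ((m + 1).choose (s + 1) : ℝ)) := by
        rw [← sum_div, s2, div_eq_iff hm2.ne', mul_assoc, div_mul_eq_mul_div, mul_div_assoc', eq_div_iff hNR.ne']
        linear_combination (-(bs F (s + 1) : ℝ)) * c2
      have hch : (((p + 1) + (i + 1)).choose (i + 1) : ℝ) =
          ((p + (i + 1)).choose (i + 1) : ℝ) + ((p + 1 + i).choose i : ℝ) := by
        rw [show p + 1 + (i + 1) = (p + 1 + i) + 1 by ring, Nat.choose_succ_succ]
        rw [show p + 1 + i = p + (i + 1) by ring]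
        push_cast
        ring
      have hgp : (gam (p + 1) (i + 1) : ℝ) = (gam p (i + 1) : ℝ) + (gam (p + 1) i : ℝ) := by
        exact_mod_cast gam_pascal p i
      rw [hch, hgp]
      rw [nsmul_eq_mul] at hsum
      simp only [sum_add_distrib, sum_sub_distrib, ← mul_sum, sum_const, nsmul_eq_mul, mul_one, hm,
        t1, t2] at hsum
      have hm0 : (0 : ℝ) < (m : ℝ) + 1 := by positivity
      push_cast at hsum ⊢
      set β : ℝ := (bs F (s + 1) : ℝ) / ((m + 1).choose (s + 1) : ℝ)
      have : ((m : ℝ) + 1) * ((gam p (i + 1) : ℝ) + (gam (p + 1) i : ℝ) -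
          (((p + (i + 1)).choose (i + 1) : ℝ) + ((p + 1 + i).choose i : ℝ)) * (1 - β)) ≤
          ((m : ℝ) + 1) * (gg F (s + 1) (i + 1) : ℝ) := by
        nlinarith [hsum]
      exact le_of_mul_le_mul_left this hm0

end Pool.Agent.Helper6H
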